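import Mathlib
set_option autoImplicit false
open MvPolynomial

namespace Pool.Agent.Helper872.EH

/-- the seven quadratic forms -/
def qf {R : Type*} [CommRing R] (x : Fin 6 → R) : Fin 7 → R :=
  ![50 * (x 0 * x 1) - x 0 * x 2 - 36 * (x 0 * x 3) - 36 * (x 1 * x 2) - x 1 * x 3
      + 24 * (x 2 * x 3),
    -975 * (x 0 * x 1) + 91 * (x 0 * x 2) + 52 * (x 0 * x 4) + 756 * (x 1 * x 2)
      + 27 * (x 1 * x 4) + 49 * (x 2 * x 4),
    -275 * (x 0 * x 1) + 77 * (x 0 * x 2) - 99 * (x 0 * x 5) + 252 * (x 1 * x 2)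
      - 4 * (x 1 * x 5) + 49 * (x 2 * x 5),
    -275 * (x 0 * x 1) + 252 * (x 0 * x 3) - 4 * (x 0 * x 4) + 77 * (x 1 * x 3)
      - 99 * (x 1 * x 4) + 49 * (x 3 * x 4),
    -975 * (x 0 * x 1) + 756 * (x 0 * x 3) + 27 * (x 0 * x 5) + 91 * (x 1 * x 3)
      + 52 * (x 1 * x 5) + 49 * (x 3 * x 5),
    -50 * (x 0 * x 1) + 4 * (x 0 * x 4) + 9 * (x 0 * x 5) + 9 * (x 1 * x 4)
      + 4 * (x 1 * x 5) + 24 * (x 4 * x 5),
    107016 * (x 0 * x 0) - 168056220 * (x 0 * x 1) + 11143643 * (x 0 * x 2)
      + 72642192 * (x 0 * x 3) + 2358136 * (x 0 * x 4) - 6427371 * (x 0 * x 5)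
      + 107016 * (x 1 * x 1) + 72642192 * (x 1 * x 2) + 11143643 * (x 1 * x 3)
      - 6427371 * (x 1 * x 4) + 2358136 * (x 1 * x 5) + 2102100 * (x 2 * x 2)
      + 2102100 * (x 3 * x 3) + 2102100 * (x 4 * x 4) + 2102100 * (x 5 * x 5)]

section facts
variable {R : Type*} [CommRing R] 

theorem cancel (hN : ∀ n : ℕ, n ≠ 0 → IsUnit (n : R)) (n : ℕ) (hn : n ≠ 0) (z : R)
    (h : (n : R) * z = 0) : z = 0 := by
  obtain ⟨u, hu⟩ := hN n hn
  rw [← hu] at h
  simpa using h


theorem facts (hN : ∀ n : ℕ, n ≠ 0 → IsUnit (n : R)) (x : Fin 6 → R) (h0 : x 0 = 0)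
    (hq : ∀ i, qf x i = 0) :
    (∀ i j k, i ≠ j → j ≠ k → i ≠ k → x i * x j * x k = 0) ∧
    (∀ i j, i ≠ j → x i ^ 2 * x j ^ 2 = 0) ∧ (∀ i j, x i ^ 4 * x j = 0) := by
  have q0 := hq 0
  have q1 := hq 1
  have q2 := hq 2
  have q3 := hq 3
  have q4 := hq 4
  have q5 := hq 5
  have q6 := hq 6
  simp only [qf, h0] at q0 q1 q2 q3 q4 q5 q6
  simp [Matrix.cons_val] at q0 q1 q2 q3 q4 q5 q6
  have t123 : x 1 * x 2 * x 3 = 0 := cancel hN 16625 (by norm_num) _ (by
    push_cast; linear_combination (2079) * x 1 * q0 + (99) * x 1 * q1 + (-49) * x 3 * q1 + (27) * x 1 * q3 + (49) * x 2 * q3)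
  have t124 : x 1 * x 2 * x 4 = 0 := cancel hN 2375 (by norm_num) _ (by
    push_cast; linear_combination (231) * x 1 * q0 + (147) * x 4 * q0 + (11) * x 1 * q1 + (3) * x 1 * q3 + (-72) * x 2 * q3)
  have t125 : x 1 * x 2 * x 5 = 0 := cancel hN 2375 (by norm_num) _ (by
    push_cast; linear_combination (-91) * x 1 * q0 + (-49) * x 5 * q0 + (-13) * x 1 * q2 + (-1) * x 1 * q4 + (24) * x 2 * q4)
  have t134 : x 1 * x 3 * x 4 = 0 := cancel hN 2375 (by norm_num) _ (by
    push_cast; linear_combination (-8316) * x 1 * q0 + (-539) * x 4 * q0 + (-396) * x 1 * q1 + (264) * x 3 * q1 + (-108) * x 1 * q3)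
  have t135 : x 1 * x 3 * x 5 = 0 := cancel hN 2375 (by norm_num) _ (by
    push_cast; linear_combination (3276) * x 1 * q0 + (637) * x 5 * q0 + (468) * x 1 * q2 + (-312) * x 3 * q2 + (36) * x 1 * q4)
  have t145 : x 1 * x 4 * x 5 = 0 := cancel hN 2375 (by norm_num) _ (by
    push_cast; linear_combination (-36) * x 1 * q1 + (-7) * x 5 * q1 + (108) * x 1 * q2 + (7) * x 4 * q2 + (108) * x 1 * q5)
  have t234 : x 2 * x 3 * x 4 = 0 := cancel hN 2375 (by norm_num) _ (by
    push_cast; linear_combination (297) * x 4 * q0 + (11) * x 3 * q1 + (-108) * x 2 * q3)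
  have t235 : x 2 * x 3 * x 5 = 0 := cancel hN 2375 (by norm_num) _ (by
    push_cast; linear_combination (52) * x 5 * q0 + (-13) * x 3 * q2 + (36) * x 2 * q4)
  have t245 : x 2 * x 4 * x 5 = 0 := cancel hN 16625 (by norm_num) _ (by
    push_cast; linear_combination (-4) * x 5 * q1 + (-27) * x 4 * q2 + (756) * x 2 * q5)
  have t345 : x 3 * x 4 * x 5 = 0 := cancel hN 16625 (by norm_num) _ (by
    push_cast; linear_combination (-52) * x 5 * q3 + (-99) * x 4 * q4 + (1001) * x 3 * q5)
  have s12 : x 1 ^ 2 * x 2 ^ 2 = 0 := cancel hN 36 (by norm_num) _ (by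
    push_cast; linear_combination -(x 1 * x 2 * q0 - (-1) * x 1 * t123 - (24) * x 2 * t123))
  have s13 : x 1 ^ 2 * x 3 ^ 2 = 0 := cancel hN 1 (by norm_num) _ (by
    push_cast; linear_combination -(x 1 * x 3 * q0 - (-36) * x 1 * t123 - (24) * x 3 * t123))
  have s14 : x 1 ^ 2 * x 4 ^ 2 = 0 := cancel hN 27 (by norm_num) _ (by
    push_cast; linear_combination x 1 * x 4 * q1 - (756) * x 1 * t124 - (49) * x 4 * t124)
  have s15 : x 1 ^ 2 * x 5 ^ 2 = 0 := cancel hN 4 (by norm_num) _ (by
    push_cast; linear_combination -(x 1 * x 5 * q2 - (252) * x 1 * t125 - (49) * x 5 * t125))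
  have s23 : x 2 ^ 2 * x 3 ^ 2 = 0 := cancel hN 24 (by norm_num) _ (by
    push_cast; linear_combination x 2 * x 3 * q0 - (-36) * x 2 * t123 - (-1) * x 3 * t123)
  have s24 : x 2 ^ 2 * x 4 ^ 2 = 0 := cancel hN 49 (by norm_num) _ (by
    push_cast; linear_combination x 2 * x 4 * q1 - (756) * x 2 * t124 - (27) * x 4 * t124)
  have s25 : x 2 ^ 2 * x 5 ^ 2 = 0 := cancel hN 49 (by norm_num) _ (by
    push_cast; linear_combination x 2 * x 5 * q2 - (252) * x 2 * t125 - (-4) * x 5 * t125)
  have s34 : x 3 ^ 2 * x 4 ^ 2 = 0 := cancel hN 49 (by norm_num) _ (by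
    push_cast; linear_combination x 3 * x 4 * q3 - (77) * x 3 * t134 - (-99) * x 4 * t134)
  have s35 : x 3 ^ 2 * x 5 ^ 2 = 0 := cancel hN 49 (by norm_num) _ (by
    push_cast; linear_combination x 3 * x 5 * q4 - (91) * x 3 * t135 - (52) * x 5 * t135)
  have s45 : x 4 ^ 2 * x 5 ^ 2 = 0 := cancel hN 24 (by norm_num) _ (by
    push_cast; linear_combination x 4 * x 5 * q5 - (9) * x 4 * t145 - (4) * x 5 * t145)
  have f12 : x 1 ^ 4 * x 2 = 0 := cancel hN 107016 (by norm_num) _ (by
    push_cast; linear_combination x 1 ^ 2 * x 2 * q6 - (72642192) * (x 1) * s12 - (11143643) * (x 1 * x 1) * t123 - (-6427371) * (x 1 * x 1) * t124 - (2358136) * (x 1 * x 1) * t125 - (2102100) * (x 2) * s12 - (2102100) * (x 1 * x 3) * t123 - (2102100) * (x 1 * x 4) * t124 - (2102100) * (x 1 * x 5) * t125)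
  have f13 : x 1 ^ 4 * x 3 = 0 := cancel hN 107016 (by norm_num) _ (by
    push_cast; linear_combination x 1 ^ 2 * x 3 * q6 - (72642192) * (x 1 * x 1) * t123 - (11143643) * (x 1) * s13 - (-6427371) * (x 1 * x 1) * t134 - (2358136) * (x 1 * x 1) * t135 - (2102100) * (x 1 * x 2) * t123 - (2102100) * (x 3) * s13 - (2102100) * (x 1 * x 4) * t134 - (2102100) * (x 1 * x 5) * t135)
  have f14 : x 1 ^ 4 * x 4 = 0 := cancel hN 107016 (by norm_num) _ (by
    push_cast; linear_combination x 1 ^ 2 * x 4 * q6 - (72642192) * (x 1 * x 1) * t124 - (11143643) * (x 1 * x 1) * t134 - (-6427371) * (x 1) * s14 - (2358136) * (x 1 * x 1) * t145 - (2102100) * (x 1 * x 2) * t124 - (2102100) * (x 1 * x 3) * t134 - (2102100) * (x 4) * s14 - (2102100) * (x 1 * x 5) * t145)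
  have f15 : x 1 ^ 4 * x 5 = 0 := cancel hN 107016 (by norm_num) _ (by
    push_cast; linear_combination x 1 ^ 2 * x 5 * q6 - (72642192) * (x 1 * x 1) * t125 - (11143643) * (x 1 * x 1) * t135 - (-6427371) * (x 1 * x 1) * t145 - (2358136) * (x 1) * s15 - (2102100) * (x 1 * x 2) * t125 - (2102100) * (x 1 * x 3) * t135 - (2102100) * (x 1 * x 4) * t145 - (2102100) * (x 5) * s15)
  have f21 : x 2 ^ 4 * x 1 = 0 := cancel hN 2102100 (by norm_num) _ (by
    push_cast; linear_combination x 2 ^ 2 * x 1 * q6 - (107016) * (x 1) * s12 - (72642192) * (x 2) * s12 - (11143643) * (x 1 * x 2) * t123 - (-6427371) * (x 1 * x 2) * t124 - (2358136) * (x 1 * x 2) * t125 - (2102100) * (x 2 * x 3) * t123 - (2102100) * (x 2 * x 4) * t124 - (2102100) * (x 2 * x 5) * t125)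
  have f23 : x 2 ^ 4 * x 3 = 0 := cancel hN 2102100 (by norm_num) _ (by
    push_cast; linear_combination x 2 ^ 2 * x 3 * q6 - (107016) * (x 1 * x 2) * t123 - (72642192) * (x 2 * x 2) * t123 - (11143643) * (x 2 * x 3) * t123 - (-6427371) * (x 2 * x 4) * t123 - (2358136) * (x 2 * x 5) * t123 - (2102100) * (x 3) * s23 - (2102100) * (x 2 * x 4) * t234 - (2102100) * (x 2 * x 5) * t235)
  have f24 : x 2 ^ 4 * x 4 = 0 := cancel hN 2102100 (by norm_num) _ (by
    push_cast; linear_combination x 2 ^ 2 * x 4 * q6 - (107016) * (x 1 * x 2) * t124 - (72642192) * (x 2 * x 2) * t124 - (11143643) * (x 2 * x 4) * t123 - (-6427371) * (x 2 * x 4) * t124 - (2358136) * (x 2 * x 5) * t124 - (2102100) * (x 2 * x 3) * t234 - (2102100) * (x 4) * s24 - (2102100) * (x 2 * x 5) * t245)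
  have f25 : x 2 ^ 4 * x 5 = 0 := cancel hN 2102100 (by norm_num) _ (by
    push_cast; linear_combination x 2 ^ 2 * x 5 * q6 - (107016) * (x 1 * x 2) * t125 - (72642192) * (x 2 * x 2) * t125 - (11143643) * (x 2 * x 5) * t123 - (-6427371) * (x 2 * x 5) * t124 - (2358136) * (x 2 * x 5) * t125 - (2102100) * (x 2 * x 3) * t235 - (2102100) * (x 2 * x 4) * t245 - (2102100) * (x 5) * s25)
  have f31 : x 3 ^ 4 * x 1 = 0 := cancel hN 2102100 (by norm_num) _ (by
    push_cast; linear_combination x 3 ^ 2 * x 1 * q6 - (107016) * (x 1) * s13 - (72642192) * (x 1 * x 3) * t123 - (11143643) * (x 3) * s13 - (-6427371) * (x 1 * x 3) * t134 - (2358136) * (x 1 * x 3) * t135 - (2102100) * (x 2 * x 3) * t123 - (2102100) * (x 3 * x 4) * t134 - (2102100) * (x 3 * x 5) * t135)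
  have f32 : x 3 ^ 4 * x 2 = 0 := cancel hN 2102100 (by norm_num) _ (by
    push_cast; linear_combination x 3 ^ 2 * x 2 * q6 - (107016) * (x 1 * x 3) * t123 - (72642192) * (x 2 * x 3) * t123 - (11143643) * (x 3 * x 3) * t123 - (-6427371) * (x 3 * x 4) * t123 - (2358136) * (x 3 * x 5) * t123 - (2102100) * (x 2) * s23 - (2102100) * (x 3 * x 4) * t234 - (2102100) * (x 3 * x 5) * t235)
  have f34 : x 3 ^ 4 * x 4 = 0 := cancel hN 2102100 (by norm_num) _ (by
    push_cast; linear_combination x 3 ^ 2 * x 4 * q6 - (107016) * (x 1 * x 3) * t134 - (72642192) * (x 3 * x 4) * t123 - (11143643) * (x 3 * x 3) * t134 - (-6427371) * (x 3 * x 4) * t134 - (2358136) * (x 3 * x 5) * t134 - (2102100) * (x 2 * x 3) * t234 - (2102100) * (x 4) * s34 - (2102100) * (x 3 * x 5) * t345)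
  have f35 : x 3 ^ 4 * x 5 = 0 := cancel hN 2102100 (by norm_num) _ (by
    push_cast; linear_combination x 3 ^ 2 * x 5 * q6 - (107016) * (x 1 * x 3) * t135 - (72642192) * (x 3 * x 5) * t123 - (11143643) * (x 3 * x 3) * t135 - (-6427371) * (x 3 * x 5) * t134 - (2358136) * (x 3 * x 5) * t135 - (2102100) * (x 2 * x 3) * t235 - (2102100) * (x 3 * x 4) * t345 - (2102100) * (x 5) * s35)
  have f41 : x 4 ^ 4 * x 1 = 0 := cancel hN 2102100 (by norm_num) _ (by
    push_cast; linear_combination x 4 ^ 2 * x 1 * q6 - (107016) * (x 1) * s14 - (72642192) * (x 1 * x 4) * t124 - (11143643) * (x 1 * x 4) * t134 - (-6427371) * (x 4) * s14 - (2358136) * (x 1 * x 4) * t145 - (2102100) * (x 2 * x 4) * t124 - (2102100) * (x 3 * x 4) * t134 - (2102100) * (x 4 * x 5) * t145)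
  have f42 : x 4 ^ 4 * x 2 = 0 := cancel hN 2102100 (by norm_num) _ (by
    push_cast; linear_combination x 4 ^ 2 * x 2 * q6 - (107016) * (x 1 * x 4) * t124 - (72642192) * (x 2 * x 4) * t124 - (11143643) * (x 4 * x 4) * t123 - (-6427371) * (x 4 * x 4) * t124 - (2358136) * (x 4 * x 5) * t124 - (2102100) * (x 2) * s24 - (2102100) * (x 3 * x 4) * t234 - (2102100) * (x 4 * x 5) * t245)
  have f43 : x 4 ^ 4 * x 3 = 0 := cancel hN 2102100 (by norm_num) _ (by
    push_cast; linear_combination x 4 ^ 2 * x 3 * q6 - (107016) * (x 1 * x 4) * t134 - (72642192) * (x 4 * x 4) * t123 - (11143643) * (x 3 * x 4) * t134 - (-6427371) * (x 4 * x 4) * t134 - (2358136) * (x 4 * x 5) * t134 - (2102100) * (x 2 * x 4) * t234 - (2102100) * (x 3) * s34 - (2102100) * (x 4 * x 5) * t345)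
  have f45 : x 4 ^ 4 * x 5 = 0 := cancel hN 2102100 (by norm_num) _ (by
    push_cast; linear_combination x 4 ^ 2 * x 5 * q6 - (107016) * (x 1 * x 4) * t145 - (72642192) * (x 4 * x 5) * t124 - (11143643) * (x 4 * x 5) * t134 - (-6427371) * (x 4 * x 4) * t145 - (2358136) * (x 4 * x 5) * t145 - (2102100) * (x 2 * x 4) * t245 - (2102100) * (x 3 * x 4) * t345 - (2102100) * (x 5) * s45)
  have f51 : x 5 ^ 4 * x 1 = 0 := cancel hN 2102100 (by norm_num) _ (by
    push_cast; linear_combination x 5 ^ 2 * x 1 * q6 - (107016) * (x 1) * s15 - (72642192) * (x 1 * x 5) * t125 - (11143643) * (x 1 * x 5) * t135 - (-6427371) * (x 1 * x 5) * t145 - (2358136) * (x 5) * s15 - (2102100) * (x 2 * x 5) * t125 - (2102100) * (x 3 * x 5) * t135 - (2102100) * (x 4 * x 5) * t145)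
  have f52 : x 5 ^ 4 * x 2 = 0 := cancel hN 2102100 (by norm_num) _ (by
    push_cast; linear_combination x 5 ^ 2 * x 2 * q6 - (107016) * (x 1 * x 5) * t125 - (72642192) * (x 2 * x 5) * t125 - (11143643) * (x 5 * x 5) * t123 - (-6427371) * (x 5 * x 5) * t124 - (2358136) * (x 5 * x 5) * t125 - (2102100) * (x 2) * s25 - (2102100) * (x 3 * x 5) * t235 - (2102100) * (x 4 * x 5) * t245)
  have f53 : x 5 ^ 4 * x 3 = 0 := cancel hN 2102100 (by norm_num) _ (by
    push_cast; linear_combination x 5 ^ 2 * x 3 * q6 - (107016) * (x 1 * x 5) * t135 - (72642192) * (x 5 * x 5) * t123 - (11143643) * (x 3 * x 5) * t135 - (-6427371) * (x 5 * x 5) * t134 - (2358136) * (x 5 * x 5) * t135 - (2102100) * (x 2 * x 5) * t235 - (2102100) * (x 3) * s35 - (2102100) * (x 4 * x 5) * t345)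
  have f54 : x 5 ^ 4 * x 4 = 0 := cancel hN 2102100 (by norm_num) _ (by
    push_cast; linear_combination x 5 ^ 2 * x 4 * q6 - (107016) * (x 1 * x 5) * t145 - (72642192) * (x 5 * x 5) * t124 - (11143643) * (x 5 * x 5) * t134 - (-6427371) * (x 4 * x 5) * t145 - (2358136) * (x 5 * x 5) * t145 - (2102100) * (x 2 * x 5) * t245 - (2102100) * (x 3 * x 5) * t345 - (2102100) * (x 4) * s45)
  have g1 : x 1 ^ 5 = 0 := cancel hN 107016 (by norm_num) _ (by
    push_cast; linear_combination x 1 ^ 3 * q6 - (72642192) * f12 - (11143643) * f13 - (-6427371) * f14 - (2358136) * f15 - (2102100) * (x 1) * s12 - (2102100) * (x 1) * s13 - (2102100) * (x 1) * s14 - (2102100) * (x 1) * s15)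
  have g2 : x 2 ^ 5 = 0 := cancel hN 2102100 (by norm_num) _ (by
    push_cast; linear_combination x 2 ^ 3 * q6 - (107016) * (x 2) * s12 - (72642192) * f21 - (11143643) * (x 2 * x 2) * t123 - (-6427371) * (x 2 * x 2) * t124 - (2358136) * (x 2 * x 2) * t125 - (2102100) * (x 2) * s23 - (2102100) * (x 2) * s24 - (2102100) * (x 2) * s25)
  have g3 : x 3 ^ 5 = 0 := cancel hN 2102100 (by norm_num) _ (by
    push_cast; linear_combination x 3 ^ 3 * q6 - (107016) * (x 3) * s13 - (72642192) * (x 3 * x 3) * t123 - (11143643) * f31 - (-6427371) * (x 3 * x 3) * t134 - (2358136) * (x 3 * x 3) * t135 - (2102100) * (x 3) * s23 - (2102100) * (x 3) * s34 - (2102100) * (x 3) * s35)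
  have g4 : x 4 ^ 5 = 0 := cancel hN 2102100 (by norm_num) _ (by
    push_cast; linear_combination x 4 ^ 3 * q6 - (107016) * (x 4) * s14 - (72642192) * (x 4 * x 4) * t124 - (11143643) * (x 4 * x 4) * t134 - (-6427371) * f41 - (2358136) * (x 4 * x 4) * t145 - (2102100) * (x 4) * s24 - (2102100) * (x 4) * s34 - (2102100) * (x 4) * s45)
  have g5 : x 5 ^ 5 = 0 := cancel hN 2102100 (by norm_num) _ (by
    push_cast; linear_combination x 5 ^ 3 * q6 - (107016) * (x 5) * s15 - (72642192) * (x 5 * x 5) * t125 - (11143643) * (x 5 * x 5) * t135 - (-6427371) * (x 5 * x 5) * t145 - (2358136) * f51 - (2102100) * (x 5) * s25 - (2102100) * (x 5) * s35 - (2102100) * (x 5) * s45)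
  refine ⟨?_, ?_, ?_⟩
  · intro i j k hij hjk hik
    fin_cases i <;> fin_cases j <;> fin_cases k <;>
      simp only [Fin.zero_eta, Fin.mk_one, Fin.reduceFinMk] <;>
    first
    | exact absurd rfl hij
    | exact absurd rfl hjk
    | exact absurd rfl hik
    | (simp [h0]; done)
    | linear_combination t123
    | linear_combination t124
    | linear_combination t125
    | linear_combination t134
    | linear_combination t135
    | linear_combination t145
    | linear_combination t234
    | linear_combination t235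
    | linear_combination t245
    | linear_combination t345
  · intro i j hij
    fin_cases i <;> fin_cases j <;>
      simp only [Fin.zero_eta, Fin.mk_one, Fin.reduceFinMk] <;>
    first
    | exact absurd rfl hij
    | (simp [h0]; done)
    | linear_combination s12
    | linear_combination s13
    | linear_combination s14
    | linear_combination s15
    | linear_combination s23
    | linear_combination s24
    | linear_combination s25
    | linear_combination s34
    | linear_combination s35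
    | linear_combination s45
  · intro i j
    fin_cases i <;> fin_cases j <;>
      simp only [Fin.zero_eta, Fin.mk_one, Fin.reduceFinMk] <;>
    first
    | (simp [h0]; done)
    | linear_combination f12
    | linear_combination f13
    | linear_combination f14
    | linear_combination f15
    | linear_combination f21
    | linear_combination f23
    | linear_combination f24
    | linear_combination f25
    | linear_combination f31
    | linear_combination f32
    | linear_combination f34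
    | linear_combination f35
    | linear_combination f41
    | linear_combination f42
    | linear_combination f43
    | linear_combination f45
    | linear_combination f51
    | linear_combination f52
    | linear_combination f53
    | linear_combination f54
    | linear_combination g1
    | linear_combination g2
    | linear_combination g3
    | linear_combination g4
    | linear_combination g5

theorem prod_zero (x : Fin 6 → R)
    (T : ∀ i j k, i ≠ j → j ≠ k → i ≠ k → x i * x j * x k = 0)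
    (Sq : ∀ i j, i ≠ j → x i ^ 2 * x j ^ 2 = 0) (F : ∀ i j, x i ^ 4 * x j = 0)
    (e : Fin 6 → ℕ) (he : ∑ i, e i = 5) : ∏ i, x i ^ e i = 0 := by
  classical
  obtain ⟨i, -, hi⟩ := Finset.exists_max_image (Finset.univ : Finset (Fin 6)) e ⟨0, by simp⟩
  have hsum : ∑ l ∈ Finset.univ.erase i, e l + e i = 5 := by
    rw [Finset.sum_erase_add _ _ (Finset.mem_univ i)]; exact he
  have hprod : ∏ l, x l ^ e l = (∏ l ∈ Finset.univ.erase i, x l ^ e l) * x i ^ e i := by
    rw [Finset.prod_erase_mul _ _ (Finset.mem_univ i)]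
  rw [hprod]
  by_cases h5 : 5 ≤ e i
  · obtain ⟨m, hm⟩ := Nat.exists_eq_add_of_le h5
    rw [hm, pow_add]
    have := F i i
    have h : x i ^ 5 = 0 := by rw [pow_succ]; exact this
    rw [h]; ring
  · obtain ⟨j, hj, hj1⟩ : ∃ j ∈ Finset.univ.erase i, e j ≠ 0 := by
      by_contra hcon
      push Not at hcon
      rw [Finset.sum_eq_zero hcon] at hsum
      omega
    have hji : j ≠ i := (Finset.mem_erase.1 hj).1
    have hsum2 : ∑ l ∈ (Finset.univ.erase i).erase j, e l + e j + e i = 5 := by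
      rw [Finset.sum_erase_add _ _ hj]; exact hsum
    have hprod2 : ∏ l ∈ Finset.univ.erase i, x l ^ e l =
        (∏ l ∈ (Finset.univ.erase i).erase j, x l ^ e l) * x j ^ e j := by
      rw [Finset.prod_erase_mul _ _ hj]
    rw [hprod2]
    by_cases h4 : 4 ≤ e i
    · obtain ⟨m, hm⟩ := Nat.exists_eq_add_of_le h4
      obtain ⟨k, hk⟩ := Nat.exists_eq_add_of_le (Nat.one_le_iff_ne_zero.2 hj1)
      rw [hm, hk, pow_add, pow_add, pow_one]
      linear_combination (∏ l ∈ (Finset.univ.erase i).erase j, x l ^ e l) * x j ^ k * x i ^ m * F i j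
    · by_cases h2 : 2 ≤ e j
      · have h2' : 2 ≤ e i := h2.trans (hi j (Finset.mem_univ j))
        obtain ⟨m, hm⟩ := Nat.exists_eq_add_of_le h2'
        obtain ⟨k, hk⟩ := Nat.exists_eq_add_of_le h2
        rw [hm, hk, pow_add, pow_add]
        linear_combination (∏ l ∈ (Finset.univ.erase i).erase j, x l ^ e l) * x j ^ k * x i ^ m *
          Sq j i hji
      · obtain ⟨k, hk, hk1⟩ : ∃ k ∈ (Finset.univ.erase i).erase j, e k ≠ 0 := by
          by_contra hcon
          push Not at hcon
          rw [Finset.sum_eq_zero hcon] at hsum2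
          omega
        have hkj : k ≠ j := (Finset.mem_erase.1 hk).1
        have hki : k ≠ i := (Finset.mem_erase.1 (Finset.mem_erase.1 hk).2).1
        have hei : 1 ≤ e i := by
          have := hi j (Finset.mem_univ j)
          omega
        obtain ⟨m, hm⟩ := Nat.exists_eq_add_of_le hei
        obtain ⟨n, hn⟩ := Nat.exists_eq_add_of_le (Nat.one_le_iff_ne_zero.2 hj1)
        obtain ⟨o, ho⟩ := Nat.exists_eq_add_of_le (Nat.one_le_iff_ne_zero.2 hk1)
        rw [← Finset.prod_erase_mul _ _ hk, hm, hn, ho, pow_add, pow_add, pow_add, pow_one, pow_one,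
          pow_one]
        linear_combination (∏ l ∈ ((Finset.univ.erase i).erase j).erase k, x l ^ e l) * x j ^ n *
          x i ^ m * x k ^ o * T k j i hkj hji hki

end facts
end Pool.Agent.Helper872.EH
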