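import Mathlib
import Pool.Agent.Helper872.EH.Facts
set_option autoImplicit false
open MvPolynomial

namespace Pool.Agent.Helper872.EH

section base
variable (K : Type*) [Field K]

/-- the ideal generated by the seven quadrics -/
noncomputable def J : Ideal (MvPolynomial (Fin 6) K) :=
  Ideal.span (Set.range (qf (X : Fin 6 → MvPolynomial (Fin 6) K)))

theorem qf_map {A B : Type*} [CommRing A] [CommRing B] (f : A →+* B) (x : Fin 6 → A) (i : Fin 7) :
    f (qf x i) = qf (fun j => f (x j)) i := by
  fin_cases i <;> simp [qf, map_ofNat f]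

theorem qf_hom (i : Fin 7) : (qf (X : Fin 6 → MvPolynomial (Fin 6) K) i).IsHomogeneous 2 := by
  have hXX : ∀ a b : Fin 6, ((X a : MvPolynomial (Fin 6) K) * X b).IsHomogeneous 2 := fun a b =>
    (isHomogeneous_X K a).mul (isHomogeneous_X K b)
  have hn : ∀ (n : ℕ) [n.AtLeastTwo] (p : MvPolynomial (Fin 6) K), p.IsHomogeneous 2 →
      ((OfNat.ofNat n : MvPolynomial (Fin 6) K) * p).IsHomogeneous 2 := by
    intro n _ p hp
    rw [← map_ofNat (C : K →+* MvPolynomial (Fin 6) K) n]
    exact hp.C_mul _
  have hneg : ∀ (n : ℕ) [n.AtLeastTwo] (p : MvPolynomial (Fin 6) K), p.IsHomogeneous 2 →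
      (-(OfNat.ofNat n : MvPolynomial (Fin 6) K) * p).IsHomogeneous 2 := by
    intro n _ p hp
    rw [neg_mul]
    exact (hn n p hp).neg
  have hadd : ∀ (p q : MvPolynomial (Fin 6) K), p.IsHomogeneous 2 → q.IsHomogeneous 2 →
      (p + q).IsHomogeneous 2 := fun p q hp hq => hp.add hq
  have hsub : ∀ (p q : MvPolynomial (Fin 6) K), p.IsHomogeneous 2 → q.IsHomogeneous 2 →
      (p - q).IsHomogeneous 2 := fun p q hp hq => hp.sub hq
  fin_cases i <;> simp only [qf, Matrix.cons_val, Fin.zero_eta, Fin.mk_one, Fin.reduceFinMk] <;>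
    repeat with_reducible first
    | apply hadd
    | apply hsub
    | apply hXX
    | apply hneg
    | apply hn

theorem J_hom_mem {p : MvPolynomial (Fin 6) K} (hp : p ∈ J K) (n : ℕ) :
    homogeneousComponent n p ∈ J K := by
  let _ := MvPolynomial.gradedAlgebra (σ := Fin 6) (R := K)
  refine homogeneousComponent_mem_of_mem (I := J K) ?_ hp n
  refine Ideal.homogeneous_span _ _ ?_
  rintro _ ⟨i, rfl⟩
  exact ⟨2, qf_hom K i⟩


theorem hc_X_mul (g : MvPolynomial (Fin 6) K) (n : ℕ) :
    homogeneousComponent (n + 1) (X 0 * g) = X 0 * homogeneousComponent n g := by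
  conv_lhs => rw [← sum_homogeneousComponent g]
  rw [Finset.mul_sum, map_sum]
  have h1 : ∀ i, homogeneousComponent (n + 1) (X 0 * homogeneousComponent i g) =
      if n = i then X 0 * homogeneousComponent i g else 0 := by
    intro i
    rw [homogeneousComponent_of_mem (n := 1 + i)
      ((isHomogeneous_X K 0).mul (homogeneousComponent_isHomogeneous i g))]
    congr 1
    simp only [eq_iff_iff]
    omega
  simp only [h1]
  rw [Finset.sum_ite_eq]
  split_ifs with h
  · rfl
  · rw [Finset.mem_range] at h
    rw [homogeneousComponent_eq_zero _ _ (by omega), mul_zero]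

theorem lift5 [CharZero K] (e : Fin 6 →₀ ℕ) (he : e.degree = 5) :
    ∃ g : MvPolynomial (Fin 6) K, g.IsHomogeneous 4 ∧ monomial e 1 - X 0 * g ∈ J K := by
  have hmem : (monomial e 1 : MvPolynomial (Fin 6) K) ∈ J K ⊔ Ideal.span {X 0} := by
    set I := J K ⊔ Ideal.span {(X 0 : MvPolynomial (Fin 6) K)} with hI
    rw [← Ideal.Quotient.eq_zero_iff_mem, monomial_eq, C_1, one_mul, Finsupp.prod_fintype _ _
      (by simp), map_prod]
    simp only [map_pow]
    have hN : ∀ n : ℕ, n ≠ 0 → IsUnit (n : MvPolynomial (Fin 6) K ⧸ I) := by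
      intro n hn
      have h1 : IsUnit ((n : K)) := isUnit_iff_ne_zero.2 (by exact_mod_cast hn)
      have h2 := h1.map (algebraMap K (MvPolynomial (Fin 6) K ⧸ I))
      simpa using h2
    obtain ⟨T, Sq, F⟩ := facts hN (fun j => Ideal.Quotient.mk I (X j))
      (Ideal.Quotient.eq_zero_iff_mem.2 (by
        rw [hI]; exact Ideal.mem_sup_right (Ideal.subset_span rfl)))
      (fun i => by
        rw [← qf_map (Ideal.Quotient.mk I) X i]
        refine Ideal.Quotient.eq_zero_iff_mem.2 ?_
        rw [hI]; exact Ideal.mem_sup_left (Ideal.subset_span ⟨i, rfl⟩))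
    refine prod_zero _ T Sq F e ?_
    rw [← he, Finsupp.degree_eq_sum]
  rw [Submodule.mem_sup] at hmem
  obtain ⟨j, hj, y, hy, hjy⟩ := hmem
  rw [Ideal.mem_span_singleton'] at hy
  obtain ⟨g, rfl⟩ := hy
  refine ⟨homogeneousComponent 4 g, homogeneousComponent_isHomogeneous 4 g, ?_⟩
  have h1 := J_hom_mem K hj 5
  have h2 : homogeneousComponent 5 (monomial e (1 : K)) = monomial e 1 :=
    homogeneousComponent_eq_self (isHomogeneous_monomial _ he)
  have h3 := hc_X_mul K g 4
  have h4 : j = monomial e 1 - X 0 * g := by rw [← hjy]; ring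
  rw [h4, map_sub, h2, h3] at h1
  exact h1

theorem lift_succ [CharZero K] (n : ℕ) (p : MvPolynomial (Fin 6) K)
    (hp : p.IsHomogeneous (n + 5)) :
    ∃ g : MvPolynomial (Fin 6) K, g.IsHomogeneous (n + 4) ∧ p - X 0 * g ∈ J K := by
  -- reduce to monomials
  have key : ∀ e : Fin 6 →₀ ℕ, e.degree = n + 5 →
      ∃ g : MvPolynomial (Fin 6) K, g.IsHomogeneous (n + 4) ∧ monomial e 1 - X 0 * g ∈ J K := by
    clear hp p
    induction n with
    | zero => intro e he; exact lift5 K e (by simpa using he)
    | succ n ih =>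
      intro e he
      have hne : e ≠ 0 := by
        rintro rfl
        simp at he
      obtain ⟨i, hi⟩ := Finsupp.ne_iff.1 hne
      have hle : Finsupp.single i 1 ≤ e := by
        rw [Finsupp.single_le_iff]
        exact Nat.one_le_iff_ne_zero.2 (by simpa using hi)
      obtain ⟨e', rfl⟩ := exists_add_of_le hle
      rw [map_add, Finsupp.degree_single] at he
      obtain ⟨g, hg, hgJ⟩ := ih e' (by omega)
      refine ⟨X i * g, ?_, ?_⟩
      · have := (isHomogeneous_X K i).mul hg
        rwa [show 1 + (n + 4) = n + 1 + 4 by omega] at this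
      · have h := (J K).mul_mem_left (X i) hgJ
        have h2 : X i * (monomial e' 1 - X 0 * g) =
            monomial (Finsupp.single i 1 + e') 1 - X 0 * (X i * g) := by
          rw [mul_sub, ← mul_one (1 : K), ← monomial_mul]
          simp only [mul_one]
          have : (monomial (Finsupp.single i 1) (1 : K)) = X i := rfl
          rw [this]
          ring
        rwa [h2] at h
  choose! g hg hgJ using key
  refine ⟨∑ e ∈ p.support, C (coeff e p) * g e, ?_, ?_⟩
  · refine IsHomogeneous.sum _ _ _ fun e he => ?_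
    refine (hg e ?_).C_mul _
    by_contra hne
    exact (mem_support_iff.1 he) (hp.coeff_eq_zero hne)
  · have h1 : p - X 0 * ∑ e ∈ p.support, C (coeff e p) * g e =
        ∑ e ∈ p.support, C (coeff e p) * (monomial e 1 - X 0 * g e) := by
      conv_lhs => rw [p.as_sum]
      rw [Finset.mul_sum]
      have h2 : (∑ v ∈ p.support, monomial v (coeff v p)).support = p.support := by
        rw [← p.as_sum]
      rw [h2, ← Finset.sum_sub_distrib]
      refine Finset.sum_congr rfl fun e _ => ?_
      have h3 : coeff e (∑ v ∈ p.support, monomial v (coeff v p)) = coeff e p := by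
        rw [← p.as_sum]
      rw [h3, mul_sub, C_mul_monomial, mul_one]
      ring
    rw [h1]
    refine (J K).sum_mem fun e he => (J K).mul_mem_left _ (hgJ e ?_)
    by_contra hne
    exact (mem_support_iff.1 he) (hp.coeff_eq_zero hne)


theorem finite_over_poly [CharZero K] (P : Ideal (MvPolynomial (Fin 6) K)) (hJP : J K ≤ P) :
    (Polynomial.aeval (R := K) (Ideal.Quotient.mk P (X 0))).toRingHom.Finite := by
  set φ : Polynomial K →+* MvPolynomial (Fin 6) K ⧸ P :=
    (Polynomial.aeval (R := K) (Ideal.Quotient.mk P (X 0))).toRingHom with hφ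
  letI : Algebra (Polynomial K) (MvPolynomial (Fin 6) K ⧸ P) := φ.toAlgebra
  have hsm : ∀ (f : Polynomial K) (b : MvPolynomial (Fin 6) K ⧸ P), f • b = φ f * b :=
    fun f b => rfl
  change Module.Finite (Polynomial K) (MvPolynomial (Fin 6) K ⧸ P)
  have hfg : (restrictTotalDegree (Fin 6) K 4).FG :=
    Module.Finite.iff_fg.1 inferInstance
  obtain ⟨s, hs⟩ := hfg
  classical
  refine ⟨⟨s.image (Ideal.Quotient.mk P), ?_⟩⟩
  rw [eq_top_iff]
  set N : Submodule (Polynomial K) (MvPolynomial (Fin 6) K ⧸ P) :=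
    Submodule.span (Polynomial K) (s.image (Ideal.Quotient.mk P) : Set _) with hN
  have h1 : ∀ p ∈ restrictTotalDegree (Fin 6) K 4, Ideal.Quotient.mk P p ∈ N := by
    intro p hp
    rw [← hs] at hp
    induction hp using Submodule.span_induction with
    | mem x hx => exact Submodule.subset_span (by
        rw [Finset.coe_image]; exact ⟨x, hx, rfl⟩)
    | zero => rw [map_zero]; exact N.zero_mem
    | add x y _ _ hx hy => rw [map_add]; exact N.add_mem hx hy
    | smul c x _ hx =>
      have h := N.smul_mem (Polynomial.C c) hx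
      rw [hsm] at h
      have h2 : φ (Polynomial.C c) * Ideal.Quotient.mk P x = Ideal.Quotient.mk P (c • x) := by
        rw [hφ]
        simp only [AlgHom.toRingHom_eq_coe, RingHom.coe_coe, Polynomial.aeval_C]
        rw [MvPolynomial.smul_eq_C_mul, map_mul]
        rfl
      rwa [h2] at h
  have h2 : ∀ n, ∀ p : MvPolynomial (Fin 6) K, p.IsHomogeneous n → Ideal.Quotient.mk P p ∈ N := by
    intro n
    induction n using Nat.strong_induction_on with
    | _ n ih =>
      intro p hp
      by_cases hn : n ≤ 4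
      · refine h1 p ?_
        rw [mem_restrictTotalDegree]
        exact hp.totalDegree_le.trans hn
      · obtain ⟨m, rfl⟩ : ∃ m, n = m + 5 := ⟨n - 5, by omega⟩
        obtain ⟨g, hg, hgJ⟩ := lift_succ K m p hp
        have h := N.smul_mem (Polynomial.X) (ih (m + 4) (by omega) g hg)
        rw [hsm] at h
        have h3 : φ Polynomial.X * Ideal.Quotient.mk P g = Ideal.Quotient.mk P p := by
          rw [hφ]
          simp only [AlgHom.toRingHom_eq_coe, RingHom.coe_coe, Polynomial.aeval_X]
          rw [← map_mul, eq_comm, Ideal.Quotient.eq]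
          exact hJP hgJ
        rwa [h3] at h
  intro b _
  obtain ⟨p, rfl⟩ := Ideal.Quotient.mk_surjective b
  rw [← sum_homogeneousComponent p, map_sum]
  exact N.sum_mem fun i _ => h2 i _ (homogeneousComponent_isHomogeneous i p)

theorem dim_le_one [CharZero K] (P : Ideal (MvPolynomial (Fin 6) K)) (hJP : J K ≤ P) :
    ringKrullDim (MvPolynomial (Fin 6) K ⧸ P) ≤ 1 := by
  have hfin := finite_over_poly K P hJP
  set φ : Polynomial K →+* MvPolynomial (Fin 6) K ⧸ P :=
    (Polynomial.aeval (R := K) (Ideal.Quotient.mk P (X 0))).toRingHom with hφ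
  letI : Algebra (Polynomial K) (MvPolynomial (Fin 6) K ⧸ P) := φ.toAlgebra
  haveI : Module.Finite (Polynomial K) (MvPolynomial (Fin 6) K ⧸ P) := hfin
  haveI : Algebra.IsIntegral (Polynomial K) (MvPolynomial (Fin 6) K ⧸ P) := inferInstance
  have h1 : ringKrullDim (MvPolynomial (Fin 6) K ⧸ P) ≤ ringKrullDim (Polynomial K) := by
    refine Order.krullDim_le_of_strictMono
      (fun I => ⟨Ideal.comap (algebraMap (Polynomial K) (MvPolynomial (Fin 6) K ⧸ P)) I.asIdeal,
        inferInstance⟩) ?_
    intro I I' hII'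
    exact Ideal.IsIntegral.comap_lt_comap (R := Polynomial K) hII'
  rw [Polynomial.ringKrullDim_of_isNoetherianRing, ringKrullDim_eq_zero_of_field, zero_add] at h1
  exact h1

end base
end Pool.Agent.Helper872.EH
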