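import Mathlib
set_option autoImplicit false
open MvPolynomial
open scoped LinearAlgebra.Projectivization

namespace Pool.Agent.Helper872.EH

section defs
variable {K : Type*} [Field K]

/-- Evaluation of the forms of degree `d` on `ℙ^r` at (representatives of) the points of a finite
set `Γ`.  Changing the representatives rescales the coordinates of `Γ → K`, so the rank of this map
does not depend on them; it is the rank of the restriction map `H⁰(𝒪(d)) → H⁰(𝒪_Γ(d))`. -/
noncomputable def evalMap {r : ℕ} (Γ : Finset (ℙ K (Fin (r + 1) → K))) (d : ℕ) :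
    homogeneousSubmodule (Fin (r + 1)) K d →ₗ[K] (Γ → K) :=
  LinearMap.pi fun P => (MvPolynomial.aeval (R := K) (fun i => P.1.rep i)).toLinearMap ∘ₗ
    (homogeneousSubmodule (Fin (r + 1)) K d).subtype

/-- The Hilbert function `h_Γ(d)` of a finite set of `K`-points: the rank of the evaluation map on
forms of degree `d`. -/
noncomputable def hilb {r : ℕ} (Γ : Finset (ℙ K (Fin (r + 1) → K))) (d : ℕ) : ℕ :=
  Module.finrank K (LinearMap.range (evalMap Γ d))

/-- `Γ` is in uniform position: subsets of the same cardinality have the same Hilbert function. -/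
def UniformPosition {r : ℕ} (Γ : Finset (ℙ K (Fin (r + 1) → K))) : Prop :=
  ∀ A ⊆ Γ, ∀ B ⊆ Γ, A.card = B.card → ∀ d, hilb A d = hilb B d

/-- The Hilbert function `t ↦ dim (S/I)_t` of a homogeneous ideal `I`; the degree `t` part of
`S/I` is the image of the forms of degree `t`. -/
noncomputable def hilbIdeal {n : ℕ} (I : Ideal (MvPolynomial (Fin n) K)) (t : ℕ) : ℕ :=
  Module.finrank K ((homogeneousSubmodule (Fin n) K t).map (Ideal.Quotient.mkₐ K I).toLinearMap)

/-- The homogeneous ideal `I` of `S = K[x_0, …, x_r]` defines a closed subscheme of `ℙ^r` of pure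
dimension one: every irreducible component (minimal prime `P` of `I`) has `dim S/P = 2`. -/
def IsCurve {r : ℕ} (I : Ideal (MvPolynomial (Fin (r + 1)) K)) : Prop :=
  (∀ f ∈ I, ∀ n, homogeneousComponent n f ∈ I) ∧
    ∀ P ∈ I.minimalPrimes, ringKrullDim (MvPolynomial (Fin (r + 1)) K ⧸ P) = 2

/-- The curve defined by `I` has degree `e`: its Hilbert polynomial is `e t + c`. -/
def HasDegree {r : ℕ} (I : Ideal (MvPolynomial (Fin (r + 1)) K)) (e : ℕ) : Prop :=
  ∃ c : ℤ, ∀ᶠ t : ℕ in Filter.atTop, (hilbIdeal I t : ℤ) = e * t + c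

/-- The points of `Γ` lie on the closed subscheme defined by `I`. -/
def LiesOn {r : ℕ} (Γ : Finset (ℙ K (Fin (r + 1) → K)))
    (I : Ideal (MvPolynomial (Fin (r + 1)) K)) : Prop :=
  ∀ P ∈ Γ, ∀ f ∈ I, MvPolynomial.eval (fun i => P.rep i) f = 0

end defs

/-- The assertion of Q1 for the field `K`, the dimension `r` and the integer `α`: every set `Γ` of
at least `2r + 2α + 1` points of `ℙ^r` in uniform position with `h_Γ(2) ≤ 2r + α` lies on a curve
of degree at most `r - 1 + α`. -/
def Assertion (K : Type*) [Field K] (r α : ℕ) : Prop :=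
  ∀ Γ : Finset (ℙ K (Fin (r + 1) → K)), 2 * r + 2 * α + 1 ≤ Γ.card → UniformPosition Γ →
    hilb Γ 2 ≤ 2 * r + α →
    ∃ I : Ideal (MvPolynomial (Fin (r + 1)) K), IsCurve I ∧ LiesOn Γ I ∧
      ∃ e : ℕ, HasDegree I e ∧ e ≤ r - 1 + α

end Pool.Agent.Helper872.EH
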