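import Mathlib
import Pool.Agent.Helper872.EH.Base
import Pool.Agent.Helper872.EH.Defs
set_option autoImplicit false
set_option linter.unusedSectionVars false
open MvPolynomial

namespace Pool.Agent.Helper872.EH

section bez
variable {K : Type*} [Field K] [CharZero K]

/-- general combination of the seven quadrics -/
noncomputable def comb : (Fin 7 → K) →ₗ[K] MvPolynomial (Fin 6) K where
  toFun a := ∑ i, C (a i) * qf (X : Fin 6 → MvPolynomial (Fin 6) K) i
  map_add' a b := by simp [add_mul, Finset.sum_add_distrib]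
  map_smul' c a := by
    simp only [Pi.smul_apply, smul_eq_mul, C_mul, RingHom.id_apply, Finset.smul_sum,
      MvPolynomial.smul_eq_C_mul, mul_assoc]

theorem comb_mem (a : Fin 7 → K) : comb a ∈ J K := by
  change ∑ i, C (a i) * qf (X : Fin 6 → MvPolynomial (Fin 6) K) i ∈ J K
  exact (J K).sum_mem fun i _ => (J K).mul_mem_left _ (Ideal.subset_span ⟨i, rfl⟩)

theorem comb_hom (a : Fin 7 → K) : (comb a).IsHomogeneous 2 :=
  IsHomogeneous.sum _ _ _ fun i _ => (qf_hom K i).C_mul _

theorem exists_avoid (I : Ideal (MvPolynomial (Fin 6) K))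
    (hI : ∀ P ∈ I.minimalPrimes, ringKrullDim (MvPolynomial (Fin 6) K ⧸ P) = 2) :
    ∃ f ∈ J K, f.IsHomogeneous 2 ∧ ∀ P ∈ I.minimalPrimes, f ∉ P := by
  by_contra hcon
  push Not at hcon
  have hfin : Finite I.minimalPrimes :=
    (Ideal.finite_minimalPrimes_of_isNoetherianRing _ I).to_subtype
  have hcov : ⋃ P : I.minimalPrimes, ((P.1.restrictScalars K).comap comb : Set (Fin 7 → K)) =
      Set.univ := by
    rw [Set.eq_univ_iff_forall]
    intro a
    obtain ⟨P, hP, hPa⟩ := hcon (comb a) (comb_mem a) (comb_hom a)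
    exact Set.mem_iUnion.2 ⟨⟨P, hP⟩, hPa⟩
  obtain ⟨P, hP⟩ := Subspace.exists_eq_top_of_iUnion_eq_univ hcov
  have hJP : J K ≤ P.1 := by
    refine Ideal.span_le.2 ?_
    rintro _ ⟨i, rfl⟩
    have h1 : (Pi.single i 1 : Fin 7 → K) ∈ (P.1.restrictScalars K).comap comb := by
      rw [hP]; trivial
    have h2 : comb (Pi.single i 1 : Fin 7 → K) = qf X i := by
      change ∑ j, C ((Pi.single i 1 : Fin 7 → K) j) * qf X j = _
      rw [Finset.sum_eq_single i]
      · simp
      · intro j _ hj; simp [Pi.single_eq_of_ne hj]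
      · simp
    rw [Submodule.mem_comap, h2] at h1
    exact h1
  have h3 := dim_le_one K P.1 hJP
  rw [hI P.1 P.2] at h3
  exact absurd h3 (by decide)


/-- degree `t` part of `S/I` -/
noncomputable def gr (I : Ideal (MvPolynomial (Fin 6) K)) (t : ℕ) :
    Submodule K (MvPolynomial (Fin 6) K ⧸ I) :=
  (homogeneousSubmodule (Fin 6) K t).map (Ideal.Quotient.mkₐ K I).toLinearMap

theorem hilbIdeal_eq (I : Ideal (MvPolynomial (Fin 6) K)) (t : ℕ) :
    hilbIdeal I t = Module.finrank K (gr I t) := rfl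

instance gr_finite (I : Ideal (MvPolynomial (Fin 6) K)) (t : ℕ) : Module.Finite K (gr I t) := by
  have h : (gr I t).FG := (homogeneousSubmodule_fg (Fin 6) K t).map _
  exact Module.Finite.iff_fg.2 h

theorem hilb_mono (I B : Ideal (MvPolynomial (Fin 6) K)) (h : I ≤ B) (t : ℕ) :
    hilbIdeal B t ≤ hilbIdeal I t := by
  rw [hilbIdeal_eq, hilbIdeal_eq]
  have h1 : gr B t = (gr I t).map (Ideal.Quotient.factorₐ K h).toLinearMap := by
    rw [gr, gr, ← Submodule.map_comp]
    congr 1
  rw [h1]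
  exact Submodule.finrank_map_le _ _

theorem step {ι : Type*} [Fintype ι] (p : ι → Fin 6 → K)
    (B : Ideal (MvPolynomial (Fin 6) K)) (f : MvPolynomial (Fin 6) K) (hf2 : f.IsHomogeneous 2)
    (hfB : ∀ g, f * g ∈ B → g ∈ B) (hB : ∀ g ∈ B, ∀ i, eval (p i) g = 0)
    (hfp : ∀ i, eval (p i) f = 0) (t : ℕ)
    (hs : ∀ y : ι → K, ∃ g : MvPolynomial (Fin 6) K, g.IsHomogeneous (t + 2) ∧
      ∀ i, eval (p i) g = y i) :
    hilbIdeal B t + Fintype.card ι ≤ hilbIdeal B (t + 2) := by
  rw [hilbIdeal_eq, hilbIdeal_eq]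
  -- evaluation on the quotient
  let ev0 : MvPolynomial (Fin 6) K →ₗ[K] (ι → K) :=
    LinearMap.pi fun i => (MvPolynomial.aeval (R := K) (p i)).toLinearMap
  have hev0 : ∀ g i, ev0 g i = eval (p i) g := fun g i => by
    simp [ev0, MvPolynomial.aeval_eq_eval]
  have hle : B.restrictScalars K ≤ LinearMap.ker ev0 := by
    intro g hg
    rw [LinearMap.mem_ker]
    funext i
    rw [hev0]
    exact hB g hg i
  let ev : (MvPolynomial (Fin 6) K ⧸ B) →ₗ[K] (ι → K) :=
    (B.restrictScalars K).liftQ ev0 hle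
  have hev : ∀ g i, ev (Ideal.Quotient.mk B g) i = eval (p i) g := fun g i => by
    rw [← hev0]; rfl
  -- multiplication by f
  let μ : (MvPolynomial (Fin 6) K ⧸ B) →ₗ[K] (MvPolynomial (Fin 6) K ⧸ B) :=
    LinearMap.mulLeft K (Ideal.Quotient.mk B f)
  have hμinj : Function.Injective μ := by
    rw [← LinearMap.ker_eq_bot, LinearMap.ker_eq_bot']
    intro b hb
    obtain ⟨g, rfl⟩ := Ideal.Quotient.mk_surjective b
    have : Ideal.Quotient.mk B (f * g) = 0 := by rw [map_mul]; exact hb
    rw [Ideal.Quotient.eq_zero_iff_mem] at this ⊢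
    exact hfB g this
  let evr : gr B (t + 2) →ₗ[K] (ι → K) := ev.domRestrict (gr B (t + 2))
  have hrange : LinearMap.range evr = ⊤ := by
    rw [LinearMap.range_eq_top]
    intro y
    obtain ⟨g, hg, hgy⟩ := hs y
    refine ⟨⟨Ideal.Quotient.mk B g, ⟨g, hg, rfl⟩⟩, ?_⟩
    funext i
    rw [← hgy i]
    exact hev g i
  have hker : Module.finrank K (gr B t) ≤ Module.finrank K (LinearMap.ker evr) := by
    have hmaps : ∀ b : gr B t, μ b ∈ gr B (t + 2) ∧ ev (μ b) = 0 := by
      rintro ⟨b, g, hg, rfl⟩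
      constructor
      · refine ⟨f * g, ?_, ?_⟩
        · have := hf2.mul hg
          rwa [add_comm 2 t] at this
        · change Ideal.Quotient.mk B (f * g) = Ideal.Quotient.mk B f * Ideal.Quotient.mk B g
          rw [map_mul]
      · funext i
        have : μ (Ideal.Quotient.mk B g) = Ideal.Quotient.mk B (f * g) := by
          rw [map_mul]; rfl
        change ev (μ (Ideal.Quotient.mk B g)) i = 0
        rw [this, hev, map_mul, hfp i, zero_mul]
    let ν : gr B t →ₗ[K] LinearMap.ker evr :=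
      LinearMap.codRestrict _ (LinearMap.codRestrict (gr B (t + 2)) (μ ∘ₗ (gr B t).subtype)
        fun b => (hmaps b).1) fun b => by
          rw [LinearMap.mem_ker]
          exact (hmaps b).2
    refine LinearMap.finrank_le_finrank_of_injective (f := ν) ?_
    intro a b hab
    have h1 : μ a = μ b := congrArg (fun z => ((z : LinearMap.ker evr) : gr B (t + 2)).1) hab
    exact Subtype.ext (hμinj h1)
  have h2 := LinearMap.finrank_range_add_finrank_ker evr
  rw [hrange, finrank_top, Module.finrank_pi] at h2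
  omega

theorem bezout {ι : Type*} [Fintype ι] (p : ι → Fin 6 → K) (hq : ∀ i k, qf (p i) k = 0)
    (hsurj : ∀ t, 4 ≤ t → ∀ y : ι → K, ∃ g : MvPolynomial (Fin 6) K, g.IsHomogeneous t ∧
      ∀ i, eval (p i) g = y i)
    (I : Ideal (MvPolynomial (Fin 6) K)) (hI : IsCurve I)
    (hp : ∀ i, ∀ g ∈ I, eval (p i) g = 0) (e : ℕ) (he : HasDegree I e) :
    Fintype.card ι ≤ 2 * e := by
  obtain ⟨f, hfJ, hf2, hfP⟩ := exists_avoid I hI.2
  have hJ0 : ∀ g ∈ J K, ∀ i, eval (p i) g = 0 := by
    intro g hg i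
    have : J K ≤ RingHom.ker (eval (p i)) := by
      refine Ideal.span_le.2 ?_
      rintro _ ⟨k, rfl⟩
      change eval (p i) (qf X k) = 0
      rw [qf_map]
      simp only [eval_X]
      exact hq i k
    exact this hg
  set B := I.radical with hBdef
  have hB : ∀ g ∈ B, ∀ i, eval (p i) g = 0 := by
    intro g hg i
    obtain ⟨n, hn⟩ := hg
    have h1 := hp i _ hn
    rw [map_pow] at h1
    exact eq_zero_of_pow_eq_zero h1
  have hfB : ∀ g, f * g ∈ B → g ∈ B := by
    intro g hg
    rw [hBdef, ← Ideal.sInf_minimalPrimes, Ideal.mem_sInf] at hg ⊢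
    intro P hP
    have hPp : P.IsPrime := hP.1.1
    rcases hPp.mem_or_mem (hg hP) with h | h
    · exact absurd h (hfP P hP)
    · exact h
  have hstep : ∀ s : ℕ, s * Fintype.card ι ≤ hilbIdeal B (2 * s + 2) := by
    intro s
    induction s with
    | zero => simp
    | succ s ih =>
      have h1 := step p B f hf2 hfB hB (hJ0 f hfJ) (2 * s + 2) (hsurj _ (by omega))
      have h2 : 2 * s + 2 + 2 = 2 * (s + 1) + 2 := by ring
      rw [h2] at h1
      have h3 : (s + 1) * Fintype.card ι = s * Fintype.card ι + Fintype.card ι := by ring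
      omega
  obtain ⟨c, hc⟩ := he
  rw [Filter.eventually_atTop] at hc
  obtain ⟨N, hN⟩ := hc
  by_contra hlt
  push Not at hlt
  -- take s large
  set s : ℕ := N + (2 * e + c.natAbs) + 1 with hs
  have h1 := hstep s
  have h2 := hilb_mono I B Ideal.le_radical (2 * s + 2)
  have h3 := hN (2 * s + 2) (by omega)
  have h4 : (s : ℤ) * Fintype.card ι ≤ e * (2 * s + 2 : ℕ) + c := by
    rw [← h3]
    exact_mod_cast h1.trans h2
  push_cast at h4
  have h5 : (2 * e + 1 : ℤ) ≤ Fintype.card ι := by exact_mod_cast hlt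
  have h6 : (s : ℤ) * (2 * e + 1) ≤ s * Fintype.card ι :=
    mul_le_mul_of_nonneg_left h5 (by positivity)
  have h7 : (c : ℤ) ≤ c.natAbs := by omega
  have h8 : (s : ℤ) = N + (2 * e + c.natAbs) + 1 := by rw [hs]; push_cast; ring
  nlinarith

end bez
end Pool.Agent.Helper872.EH
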