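import Mathlib
set_option autoImplicit false

namespace Pool.Agent.Helper872.EH

/-- the twenty points -/
def vl : List (List ℤ) := [[330, 55, 165, 66, 220, 60],
    [-55, -330, -66, -165, -60, -220],
    [2860, 660, 1716, 780, 2145, 715],
    [-660, -2860, -780, -1716, -715, -2145],
    [1365, 390, 910, 455, 1092, 420],
    [-390, -1365, -455, -910, -420, -1092],
    [546, 182, 390, 210, 455, 195],
    [-182, -546, -210, -390, -195, -455],
    [280, 105, 210, 120, 240, 112],
    [-105, -280, -120, -210, -112, -240],
    [330, 55, 220, 60, 66, 165],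
    [-55, -330, -60, -220, -165, -66],
    [2860, 660, 2145, 715, 780, 1716],
    [-660, -2860, -715, -2145, -1716, -780],
    [1365, 390, 1092, 420, 455, 910],
    [-390, -1365, -420, -1092, -910, -455],
    [546, 182, 455, 195, 210, 390],
    [-182, -546, -195, -455, -390, -210],
    [280, 105, 240, 112, 120, 210],
    [-105, -280, -112, -240, -210, -120]]

/-- the coefficients of the cubic relation -/
def cl : List ℤ := [494, -494, -7, 7, 198, -198, -3850, 3850, 12376, -12376, -494, 494, 7, -7, -198, 198, 3850, -3850, -12376, 12376]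

/-- the twenty points in another basis -/
def wl : List (List ℤ) := [[131, 957, 479, 626, 160, 60],
    [-534, -912, 199, -725, 160, -220],
    [1209, 9942, 4511, 6500, 1430, 715],
    [-5171, -9282, 1651, -7436, 1430, -2145],
    [658, 5304, 2219, 3479, 672, 420],
    [-2609, -4935, 707, -3934, 672, -1092],
    [301, 2292, 895, 1510, 260, 195],
    [-1077, -2136, 245, -1690, 260, -455],
    [174, 1245, 458, 824, 128, 112],
    [-563, -1164, 106, -914, 128, -240],
    [434, 747, 127, 522, -99, 165],
    [-182, -1220, -104, -682, -99, -66],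
    [4082, 7940, 1274, 5707, -936, 1716],
    [-1934, -12012, -1222, -7137, -936, -780],
    [2058, 4324, 672, 3150, -455, 910],
    [-1062, -6209, -693, -3822, -455, -455],
    [856, 1902, 290, 1395, -180, 390],
    [-472, -2626, -310, -1655, -180, -210],
    [452, 1049, 158, 772, -90, 210],
    [-263, -1404, -172, -900, -90, -120]]

/-- change of basis -/
def nl : List (List ℤ) := [[1, 0, 1, 0, -1, -2],
    [0, 1, -2, -4, 10, 16],
    [0, 0, 1, 1, -4, -5],
    [0, 0, 0, 1, -2, -4],
    [0, 0, 0, 0, 1, 1],
    [0, 0, 0, 0, 0, 1]]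

/-- inverse change of basis -/
def ml : List (List ℤ) := [[1, 0, -1, 1, -1, 2],
    [0, 1, 2, 2, 2, 0],
    [0, 0, 1, -1, 2, -1],
    [0, 0, 0, 1, 2, 2],
    [0, 0, 0, 0, 1, -1],
    [0, 0, 0, 0, 0, 1]]

/-- fourteen quadratic forms, the `i`-th being nonzero exactly at the `(i+6)`-th of the points
number `6, …, 19` -/
def dl : List (List (List ℤ)) := [[[0, 4475, -364, -1764, -180, 270], [0, 0, -3276, -196, 225, 0], [0, 0, 0, 0, 0, 0], [0, 0, 0, 0, 0, 0], [0, 0, 0, 0, 0, 810], [0, 0, 0, 0, 0, 0]],
    [[0, 2225, -196, -3276, 180, 630], [0, 0, -1764, -364, 675, 0], [0, 0, 0, 0, 0, 0], [0, 0, 0, 0, 0, 0], [0, 0, 0, 0, 0, 1890], [0, 0, 0, 0, 0, 0]],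
    [[0, 7850, -637, -3276, -288, 504], [0, 0, -5733, -364, 432, 0], [0, 0, 0, 0, 0, 0], [0, 0, 0, 0, 0, 0], [0, 0, 0, 0, 0, 1512], [0, 0, 0, 0, 0, 0]],
    [[0, 4250, -364, -5733, 288, 1080], [0, 0, -3276, -637, 1152, 0], [0, 0, 0, 0, 0, 0], [0, 0, 0, 0, 0, 0], [0, 0, 0, 0, 0, 3240], [0, 0, 0, 0, 0, 0]],
    [[-3210480, -1350209650, 11163866, 1038795408, -14958444, 44761995], [0, 2140320, 124728744, 171989762, -135088941, 52921980], [0, 0, -21021000, 0, 0, 0], [0, 0, 0, 40131000, 0, 0], [0, 0, 0, 0, 37837800, 0], [0, 0, 0, 0, 0, 0]],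
    [[2140320, -1350209650, 171989762, 124728744, 52921980, -135088941], [0, -3210480, 1038795408, 11163866, 44761995, -14958444], [0, 0, 40131000, 0, 0, 0], [0, 0, 0, -21021000, 0, 0], [0, 0, 0, 0, 0, 0], [0, 0, 0, 0, 0, 37837800]],
    [[-428064, -248275870, 2318141, 187260024, -2519064, 7398222], [0, 395136, 26866224, 31121741, -24636546, 9412728], [0, 0, -3153150, 0, 0, 0], [0, 0, 0, 7357350, 0, 0], [0, 0, 0, 0, 6879600, 0], [0, 0, 0, 0, 0, 0]],
    [[395136, -248275870, 31121741, 26866224, 9412728, -24636546], [0, -428064, 187260024, 2318141, 7398222, -2519064], [0, 0, 7357350, 0, 0, 0], [0, 0, 0, -3153150, 0, 0], [0, 0, 0, 0, 0, 0], [0, 0, 0, 0, 0, 6879600]],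
    [[-13912080, -9971700150, 103960948, 7410898488, -93404140, 274515855], [0, 15899520, 1192940112, 1234149532, -981094185, 369335420], [0, 0, -109309200, 0, 0, 0], [0, 0, 0, 294294000, 0, 0], [0, 0, 0, 0, 273273000, 0], [0, 0, 0, 0, 0, 0]],
    [[15899520, -9971700150, 1234149532, 1192940112, 369335420, -981094185], [0, -13912080, 7410898488, 103960948, 274515855, -93404140], [0, 0, 294294000, 0, 0, 0], [0, 0, 0, -109309200, 0, 0], [0, 0, 0, 0, 0, 0], [0, 0, 0, 0, 0, 273273000]],
    [[-32104800, -26791173650, 302866207, 19699820532, -235562280, 694433970], [0, 42806400, 3423113988, 3284670823, -2618423070, 975935880], [0, 0, -262762500, 0, 0, 0], [0, 0, 0, 788287500, 0, 0], [0, 0, 0, 0, 727650000, 0], [0, 0, 0, 0, 0, 0]],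
    [[42806400, -26791173650, 3284670823, 3423113988, 975935880, -2618423070], [0, -32104800, 19699820532, 302866207, 694433970, -235562280], [0, 0, 788287500, 0, 0, 0], [0, 0, 0, -262762500, 0, 0], [0, 0, 0, 0, 0, 0], [0, 0, 0, 0, 0, 727650000]],
    [[-7491120, -7015581850, 84149114, 5118176784, -58708620, 173470515], [0, 11236680, 938211876, 854074886, -682234605, 252441060], [0, 0, -63063000, 0, 0, 0], [0, 0, 0, 206005800, 0, 0], [0, 0, 0, 0, 189189000, 0], [0, 0, 0, 0, 0, 0]],
    [[11236680, -7015581850, 854074886, 938211876, 252441060, -682234605], [0, -7491120, 5118176784, 84149114, 173470515, -58708620], [0, 0, 206005800, 0, 0, 0], [0, 0, 0, -63063000, 0, 0], [0, 0, 0, 0, 0, 0], [0, 0, 0, 0, 0, 189189000]]]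

def vv (i : Fin 20) (j : Fin 6) : ℤ := (vl.getD i.val []).getD j.val 0
def cc (i : Fin 20) : ℤ := cl.getD i.val 0
def nn (i j : Fin 6) : ℤ := (nl.getD i.val []).getD j.val 0
def mm (i j : Fin 6) : ℤ := (ml.getD i.val []).getD j.val 0
def dd (i : Fin 20) (a b : Fin 6) : ℤ := ((dl.getD (i.val - 6) []).getD a.val []).getD b.val 0

/-! ### Checking that any six of the points are linearly independent -/

/-- `u0 * w - w0 * u` -/
def comb2 (u0 w0 : ℤ) : List ℤ → List ℤ → List ℤ
  | x :: xs, y :: ys => (u0 * y - w0 * x) :: comb2 u0 w0 xs ys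
  | _, _ => []

/-- eliminate the first coordinate -/
def elim : List ℤ → List ℤ → List ℤ
  | u0 :: us, w0 :: ws => comb2 u0 w0 us ws
  | _, _ => []

def hd : List ℤ → Bool
  | u0 :: _ => decide (u0 ≠ 0)
  | [] => false

def tailsAll (f : List ℤ → List (List ℤ) → Bool) : List (List ℤ) → Bool
  | [] => true
  | u :: rest => f u rest && tailsAll f rest

def chk : ℕ → List (List ℤ) → Bool
  | 0 => fun _ => true
  | m + 1 => tailsAll fun u rest => hd u && chk m (rest.map (elim u))

/-- the part of the check starting with the `i`-th vector -/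
def one (m i : ℕ) (L : List (List ℤ)) : Bool :=
  match L.drop i with
  | u :: rest => hd u && chk m (rest.map (elim u))
  | [] => true

theorem tailsAll_of (f : List ℤ → List (List ℤ) → Bool) (L : List (List ℤ))
    (h : ∀ i, i < L.length → (match L.drop i with
      | u :: rest => f u rest
      | [] => true) = true) : tailsAll f L = true := by
  induction L with
  | nil => rfl
  | cons u L ih =>
    have h0 := h 0 (by simp)
    simp only [List.drop_zero] at h0
    have h1 := ih fun i hi => by
      have := h (i + 1) (by simpa using hi)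
      simpa using this
    simp [tailsAll, h0, h1]

theorem chk_of_one (m : ℕ) (L : List (List ℤ)) (h : ∀ i, i < L.length → one m i L = true) :
    chk (m + 1) L = true :=
  tailsAll_of _ L h

section sound
variable {K : Type*} [Field K] [CharZero K]

/-- pairing of a covector with an integer vector -/
def dot : List K → List ℤ → K
  | a :: as, w :: ws => a * (w : K) + dot as ws
  | _, _ => 0

theorem dot_comb2 (u0 w0 : ℤ) : ∀ (a : List K) (us ws : List ℤ), us.length = a.length →
    ws.length = a.length → dot a (comb2 u0 w0 us ws) = u0 * dot a ws - w0 * dot a us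
  | [], us, ws, _, _ => by simp [dot]
  | a :: as, [], ws, h1, _ => by simp at h1
  | a :: as, u :: us, [], _, h2 => by simp at h2
  | a :: as, u :: us, w :: ws, h1, h2 => by
    simp only [comb2, dot]
    rw [dot_comb2 u0 w0 as us ws (by simpa using h1) (by simpa using h2)]
    push_cast
    ring

theorem comb2_length (u0 w0 : ℤ) : ∀ (n : ℕ) (us ws : List ℤ), us.length = n →
    ws.length = n → (comb2 u0 w0 us ws).length = n
  | 0, us, ws, h1, h2 => by
    rw [List.length_eq_zero_iff] at h1 h2
    subst h1 h2
    rfl
  | n + 1, [], ws, h1, _ => by simp at h1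
  | n + 1, u :: us, [], _, h2 => by simp at h2
  | n + 1, u :: us, w :: ws, h1, h2 => by
    simp only [comb2, List.length_cons]
    rw [comb2_length u0 w0 n us ws (by simpa using h1) (by simpa using h2)]

theorem dot_zero : ∀ (a : List K) (w : List ℤ), (∀ x ∈ a, x = 0) → dot a w = 0
  | [], _, _ => by simp [dot]
  | a :: as, [], _ => by simp [dot]
  | a :: as, w :: ws, h => by
    simp only [dot]
    rw [h a (by simp), dot_zero as ws fun x hx => h x (by simp [hx])]
    simp

theorem chk_sound : ∀ (m : ℕ) (L : List (List ℤ)), (∀ w ∈ L, w.length = m) → chk m L = true →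
    ∀ s : List (List ℤ), s.Sublist L → s.length = m → ∀ a : List K, a.length = m →
      (∀ w ∈ s, dot a w = 0) → ∀ x ∈ a, x = 0 := by
  intro m
  induction m with
  | zero =>
    intro L _ _ s _ _ a ha _ x hx
    rw [List.length_eq_zero_iff] at ha
    subst ha
    simp at hx
  | succ m ih =>
    intro L
    induction L with
    | nil =>
      intro _ _ s hs hsl
      rw [List.sublist_nil] at hs
      subst hs
      simp at hsl
    | cons u L ihL =>
      intro hL hchk s hs hsl a ha hdot
      have hchk' : (hd u && chk m (L.map (elim u)) && chk (m + 1) L) = true := hchk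
      rw [Bool.and_eq_true, Bool.and_eq_true] at hchk'
      obtain ⟨⟨hhd, hc1⟩, hc2⟩ := hchk'
      rw [List.sublist_cons_iff] at hs
      rcases hs with hs | ⟨s', rfl, hs'⟩
      · exact ihL (fun w hw => hL w (by simp [hw])) hc2 s hs hsl a ha hdot
      · obtain ⟨u0, us, rfl⟩ : ∃ u0 us, u = u0 :: us := by
          cases u with
          | nil => simp [hd] at hhd
          | cons u0 us => exact ⟨u0, us, rfl⟩
        obtain ⟨a0, as, rfl⟩ : ∃ a0 as, a = a0 :: as := by
          cases a with
          | nil => simp at ha
          | cons a0 as => exact ⟨a0, as, rfl⟩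
        have hus : us.length = m := by simpa using hL (u0 :: us) (by simp)
        have has : as.length = m := by simpa using ha
        have hu0 : (u0 : K) ≠ 0 := by
          have : u0 ≠ 0 := by simpa [hd] using hhd
          exact_mod_cast this
        have hu : a0 * (u0 : K) + dot as us = 0 := hdot (u0 :: us) (by simp)
        have hz : ∀ x ∈ as, x = 0 := by
          refine ih (L.map (elim (u0 :: us))) ?_ hc1 (s'.map (elim (u0 :: us))) (hs'.map _)
            (by simpa using hsl) as has ?_
          · intro w hw
            rw [List.mem_map] at hw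
            obtain ⟨w', hw', rfl⟩ := hw
            have hl := hL w' (by simp [hw'])
            cases w' with
            | nil => simp at hl
            | cons w0 ws => exact comb2_length u0 w0 m us ws hus (by simpa using hl)
          · intro w hw
            rw [List.mem_map] at hw
            obtain ⟨w', hw', rfl⟩ := hw
            have hl := hL w' (by simp [hs'.subset hw'])
            cases w' with
            | nil => simp at hl
            | cons w0 ws =>
              have h1 : a0 * (w0 : K) + dot as ws = 0 := hdot (w0 :: ws) (by simp [hw'])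
              change dot as (comb2 u0 w0 us ws) = 0
              rw [dot_comb2 u0 w0 as us ws (by rw [hus, has]) (by
                rw [has]; simpa using hl)]
              linear_combination (u0 : K) * h1 - (w0 : K) * hu
        rw [dot_zero as us hz, add_zero] at hu
        have ha0 : a0 = 0 := (mul_eq_zero.1 hu).resolve_right hu0
        intro x hx
        rcases List.mem_cons.1 hx with rfl | hx
        · exact ha0
        · exact hz x hx

theorem dot_ofFn : ∀ (n : ℕ) (a : Fin n → K) (w : List ℤ), w.length = n →
    dot (List.ofFn a) w = ∑ k : Fin n, a k * ((w.getD k.val 0 : ℤ) : K)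
  | 0, a, w, _ => by simp [dot]
  | n + 1, a, [], h => by simp at h
  | n + 1, a, w :: ws, h => by
    rw [List.ofFn_succ, Fin.sum_univ_succ]
    simp only [dot, Fin.val_zero, List.getD_cons_zero, Fin.val_succ, List.getD_cons_succ]
    rw [dot_ofFn n (fun i => a i.succ) ws (by simpa using h)]

end sound

/-! ### Kernel computations -/

theorem one0 : one 5 0 wl = true := by decide +kernel
theorem one1 : one 5 1 wl = true := by decide +kernel
theorem one2 : one 5 2 wl = true := by decide +kernel
theorem one3 : one 5 3 wl = true := by decide +kernel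
theorem one4 : one 5 4 wl = true := by decide +kernel
theorem one5 : one 5 5 wl = true := by decide +kernel
theorem one6 : one 5 6 wl = true := by decide +kernel
theorem one7 : one 5 7 wl = true := by decide +kernel
theorem one8 : one 5 8 wl = true := by decide +kernel
theorem one9 : one 5 9 wl = true := by decide +kernel
theorem one10 : one 5 10 wl = true := by decide +kernel
theorem one11 : one 5 11 wl = true := by decide +kernel
theorem one12 : one 5 12 wl = true := by decide +kernel
theorem one13 : one 5 13 wl = true := by decide +kernel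
theorem one14 : one 5 14 wl = true := by decide +kernel
theorem one15 : one 5 15 wl = true := by decide +kernel
theorem one16 : one 5 16 wl = true := by decide +kernel
theorem one17 : one 5 17 wl = true := by decide +kernel
theorem one18 : one 5 18 wl = true := by decide +kernel
theorem one19 : one 5 19 wl = true := by decide +kernel

theorem wl_length : wl.length = 20 := by decide

theorem chk_wl : chk 6 wl = true := by
  refine chk_of_one 5 wl fun i hi => ?_
  rw [wl_length] at hi
  interval_cases i
  · exact one0
  · exact one1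
  · exact one2
  · exact one3
  · exact one4
  · exact one5
  · exact one6
  · exact one7
  · exact one8
  · exact one9
  · exact one10
  · exact one11
  · exact one12
  · exact one13
  · exact one14
  · exact one15
  · exact one16
  · exact one17
  · exact one18
  · exact one19

theorem wl_lengths : ∀ w ∈ wl, w.length = 6 := by decide

theorem wl_eq : (List.finRange 20).map (fun i => wl.getD i.val []) = wl := by decide +kernel

theorem vv_eq : ∀ i j, vv i j = ∑ k, nn j k * ((wl.getD i.val []).getD k.val 0) := by
  decide +kernel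

theorem nn_mm : ∀ i j, ∑ k, nn i k * mm k j = if i = j then 1 else 0 := by decide +kernel

theorem cc_ne : ∀ i, cc i ≠ 0 := by decide +kernel

theorem cubic : ∀ a b d : Fin 6, ∑ i, cc i * vv i a * vv i b * vv i d = 0 := by decide +kernel

theorem dd_zero : ∀ i j : Fin 20, 6 ≤ i.val → 6 ≤ j.val → j ≠ i →
    ∑ a, ∑ b, dd i a b * (vv j a * vv j b) = 0 := by decide +kernel

theorem dd_ne : ∀ i : Fin 20, 6 ≤ i.val → ∑ a, ∑ b, dd i a b * (vv i a * vv i b) ≠ 0 := by
  decide +kernel

end Pool.Agent.Helper872.EH
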