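import Mathlib
import Pool.Agent.Helper872.EH.Defs
set_option autoImplicit false
set_option linter.unusedSectionVars false
open MvPolynomial

namespace Pool.Agent.Helper872.EH

section abs
variable {K : Type*} [Field K]

/-- the linear form with coefficient vector `a` -/
noncomputable def lin (a : Fin 6 → K) : MvPolynomial (Fin 6) K := ∑ j, C (a j) * X j

theorem lin_hom (a : Fin 6 → K) : (lin a).IsHomogeneous 1 :=
  IsHomogeneous.sum _ _ _ fun j _ => (isHomogeneous_X K j).C_mul _

theorem eval_lin (q a : Fin 6 → K) : eval q (lin a) = q ⬝ᵥ a := by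
  simp only [lin, map_sum, map_mul, eval_C, eval_X, dotProduct]
  exact Finset.sum_congr rfl fun j _ => mul_comm _ _

/-- data of the point configuration -/
structure Conf (p : Fin 20 → Fin 6 → K) (c : Fin 20 → K) : Prop where
  lgp : ∀ T : Finset (Fin 20), T.card = 6 → ∀ a : Fin 6 → K, (∀ i ∈ T, p i ⬝ᵥ a = 0) → a = 0
  cne : ∀ i, c i ≠ 0
  rel : ∀ g : MvPolynomial (Fin 6) K, g.IsHomogeneous 3 → ∑ i, c i * eval (p i) g = 0
  dual : ∀ i : Fin 20, 6 ≤ i.val → ∃ D : MvPolynomial (Fin 6) K, D.IsHomogeneous 2 ∧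
    eval (p i) D ≠ 0 ∧ ∀ j : Fin 20, 6 ≤ j.val → j ≠ i → eval (p j) D = 0

variable {p : Fin 20 → Fin 6 → K} {c : Fin 20 → K}

theorem Conf.interp (h : Conf p c) (T : Finset (Fin 20)) (hT : T.card = 6) (y : Fin 20 → K) :
    ∃ a : Fin 6 → K, ∀ i ∈ T, p i ⬝ᵥ a = y i := by
  let M : Matrix T (Fin 6) K := fun i => p i
  have hinj : Function.Injective M.mulVecLin := by
    rw [← LinearMap.ker_eq_bot, LinearMap.ker_eq_bot']
    intro a ha
    refine h.lgp T hT a fun i hi => ?_
    exact congrFun ha ⟨i, hi⟩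
  have hsurj : Function.Surjective M.mulVecLin := by
    rwa [← LinearMap.injective_iff_surjective_of_finrank_eq_finrank]
    simp [hT]
  obtain ⟨a, ha⟩ := hsurj fun i => y i
  exact ⟨a, fun i hi => congrFun ha ⟨i, hi⟩⟩

/-- a hyperplane through five points avoiding a sixth -/
theorem Conf.hyper (h : Conf p c) (B : Finset (Fin 20)) (hB : B.card = 5) (i : Fin 20)
    (hi : i ∉ B) : ∃ a : Fin 6 → K, p i ⬝ᵥ a = 1 ∧ (∀ k ∈ B, p k ⬝ᵥ a = 0) ∧
      ∀ j, j ∉ B → p j ⬝ᵥ a ≠ 0 := by
  classical
  obtain ⟨a, ha⟩ := h.interp (insert i B) (by rw [Finset.card_insert_of_notMem hi, hB])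
    (fun k => if k = i then 1 else 0)
  have h1 : p i ⬝ᵥ a = 1 := by
    rw [ha i (Finset.mem_insert_self _ _)]; simp
  have h2 : ∀ k ∈ B, p k ⬝ᵥ a = 0 := by
    intro k hk
    rw [ha k (Finset.mem_insert_of_mem hk), if_neg]
    rintro rfl; exact hi hk
  refine ⟨a, h1, h2, ?_⟩
  intro j hj h0
  have h3 := h.lgp (insert j B) (by rw [Finset.card_insert_of_notMem hj, hB]) a (by
    intro k hk
    rcases Finset.mem_insert.1 hk with rfl | hk
    · exact h0
    · exact h2 k hk)
  rw [h3] at h1
  simp at h1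

theorem exists_five (F : Finset (Fin 20)) (hF : F.card ≤ 15) :
    ∃ B : Finset (Fin 20), B.card = 5 ∧ Disjoint B F := by
  classical
  have h1 : 5 ≤ (Finset.univ \ F).card := by
    rw [Finset.card_sdiff_of_subset (Finset.subset_univ _)]
    simp
    omega
  obtain ⟨B, hB, hB5⟩ := Finset.exists_subset_card_eq h1
  refine ⟨B, hB5, ?_⟩
  rw [Finset.disjoint_left]
  intro x hx
  exact (Finset.mem_sdiff.1 (hB hx)).2

/-- `y` annihilates all forms of degree `d` -/
def Ann (p : Fin 20 → Fin 6 → K) (d : ℕ) (y : Fin 20 → K) : Prop :=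
  ∀ g : MvPolynomial (Fin 6) K, g.IsHomogeneous d → ∑ i, y i * eval (p i) g = 0

theorem Ann.mul {d : ℕ} {y : Fin 20 → K} (hy : Ann p (d + 1) y) (a : Fin 6 → K) :
    Ann p d (fun i => y i * (p i ⬝ᵥ a)) := by
  intro g hg
  have h1 := hy (lin a * g) (by
    have := (lin_hom a).mul hg
    rwa [add_comm 1 d] at this)
  rw [← h1]
  refine Finset.sum_congr rfl fun i _ => ?_
  rw [map_mul, eval_lin, mul_assoc]

theorem Conf.ann2 (h : Conf p c) (y : Fin 20 → K) (hy : Ann p 2 y) :
    ∃ a : Fin 6 → K, ∀ i, y i = c i * (p i ⬝ᵥ a) := by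
  classical
  obtain ⟨a, ha⟩ := h.interp (Finset.univ.filter fun i : Fin 20 => i.val < 6) (by decide)
    (fun i => y i / c i)
  refine ⟨a, ?_⟩
  have hz : Ann p 2 (fun i => y i - c i * (p i ⬝ᵥ a)) := by
    intro g hg
    have h1 : Ann p 2 (fun i => c i * (p i ⬝ᵥ a)) := Ann.mul (d := 2) h.rel a
    have h2 := h1 g hg
    have h3 := hy g hg
    simp only [sub_mul, Finset.sum_sub_distrib]
    rw [h2, h3, sub_zero]
  have hz0 : ∀ i : Fin 20, i.val < 6 → y i - c i * (p i ⬝ᵥ a) = 0 := by
    intro i hi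
    rw [ha i (by simpa using hi)]
    have := h.cne i
    field_simp
    ring
  intro i
  by_cases hi : i.val < 6
  · exact sub_eq_zero.1 (hz0 i hi)
  · push Not at hi
    obtain ⟨D, hD2, hDi, hDj⟩ := h.dual i hi
    have h4 := hz D hD2
    rw [Finset.sum_eq_single i] at h4
    · exact sub_eq_zero.1 ((mul_eq_zero.1 h4).resolve_right hDi)
    · intro j _ hj
      by_cases hj6 : j.val < 6
      · simp only [hz0 j hj6, zero_mul]
      · push Not at hj6
        rw [hDj j hj6 hj, mul_zero]
    · simp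

theorem Conf.ann3 (h : Conf p c) (y : Fin 20 → K) (hy : Ann p 3 y) :
    ∃ s : K, ∀ i, y i = s * c i := by
  classical
  have hne := h.cne
  refine ⟨y 0 / c 0, ?_⟩
  intro j
  by_cases hj0 : j = 0
  · subst hj0
    have := hne 0
    field_simp
  obtain ⟨B, hB5, hBd⟩ := exists_five {0, j} (by
    refine (Finset.card_le_two).trans (by norm_num))
  have h0B : (0 : Fin 20) ∉ B := fun hx => (Finset.disjoint_left.1 hBd hx) (by simp)
  have hjB : j ∉ B := fun hx => (Finset.disjoint_left.1 hBd hx) (by simp)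
  obtain ⟨a, ha1, haB, hane⟩ := h.hyper B hB5 0 h0B
  obtain ⟨b, hb⟩ := h.ann2 _ (Ann.mul (d := 2) hy a)
  -- b agrees with (y 0 / c 0) • a
  have h1 : b - (y 0 / c 0) • a = 0 := by
    refine h.lgp (insert 0 B) (by rw [Finset.card_insert_of_notMem h0B, hB5]) _ ?_
    intro k hk
    rw [dotProduct_sub, dotProduct_smul, smul_eq_mul]
    have hbk := hb k
    rcases Finset.mem_insert.1 hk with rfl | hk
    · rw [ha1, mul_one] at hbk ⊢
      have := hne 0
      field_simp
      rw [hbk]
      ring
    · rw [haB k hk, mul_zero] at hbk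
      rw [haB k hk, mul_zero, sub_zero]
      exact (mul_eq_zero.1 hbk.symm).resolve_left (hne k)
  have h2 : b = (y 0 / c 0) • a := sub_eq_zero.1 h1
  have h3 := hb j
  rw [h2, dotProduct_smul, smul_eq_mul] at h3
  have h4 := hane j hjB
  have h5 : (y j - y 0 / c 0 * c j) * (p j ⬝ᵥ a) = 0 := by
    rw [sub_mul, h3]; ring
  exact sub_eq_zero.1 ((mul_eq_zero.1 h5).resolve_right h4)

theorem Conf.ann4 (h : Conf p c) (d : ℕ) (hd : 4 ≤ d) (y : Fin 20 → K) (hy : Ann p d y) :
    ∀ i, y i = 0 := by
  classical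
  induction d, hd using Nat.le_induction generalizing y with
  | base =>
    intro i
    obtain ⟨B, hB5, hBd⟩ := exists_five {i} (by simp)
    have hiB : i ∉ B := fun hx => (Finset.disjoint_left.1 hBd hx) (by simp)
    obtain ⟨a, ha1, haB, -⟩ := h.hyper B hB5 i hiB
    obtain ⟨s, hs⟩ := h.ann3 _ (Ann.mul (d := 3) hy a)
    obtain ⟨k, hk⟩ : B.Nonempty := Finset.card_pos.1 (by omega)
    have h1 := hs k
    simp only [haB k hk, mul_zero] at h1
    have h2 : s = 0 := (mul_eq_zero.1 h1.symm).resolve_right (h.cne k)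
    have h3 := hs i
    simp only [ha1, mul_one, h2, zero_mul] at h3
    exact h3
  | succ d hd ih =>
    intro i
    obtain ⟨B, hB5, hBd⟩ := exists_five {i} (by simp)
    have hiB : i ∉ B := fun hx => (Finset.disjoint_left.1 hBd hx) (by simp)
    obtain ⟨a, ha1, haB, -⟩ := h.hyper B hB5 i hiB
    have h1 := ih _ (Ann.mul hy a) i
    simp only [ha1, mul_one] at h1
    exact h1


/-- evaluation of forms of degree `d` at a family of vectors -/
noncomputable def E {ι : Type*} (q : ι → Fin 6 → K) (d : ℕ) :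
    homogeneousSubmodule (Fin 6) K d →ₗ[K] (ι → K) :=
  LinearMap.pi fun i => (MvPolynomial.aeval (R := K) (q i)).toLinearMap ∘ₗ
    (homogeneousSubmodule (Fin 6) K d).subtype

theorem E_apply {ι : Type*} (q : ι → Fin 6 → K) (d : ℕ) (g : homogeneousSubmodule (Fin 6) K d)
    (i : ι) : E q d g i = eval (q i) g.1 := by
  simp [E, MvPolynomial.aeval_eq_eval]

/-- the maximal ranks -/
def NN : ℕ → ℕ
  | 0 => 1
  | 1 => 6
  | 2 => 14
  | 3 => 19
  | _ => 20

theorem Conf.supp_zero (h : Conf p c) (d : ℕ) (y : Fin 20 → K) (hy : Ann p d y)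
    (T : Finset (Fin 20)) (hT : T.card ≤ NN d) (hyT : ∀ i, i ∉ T → y i = 0) : ∀ i, y i = 0 := by
  classical
  match d, hy, hT with
  | 0, hy, hT =>
    have hT : T.card ≤ 1 := hT
    intro i
    by_cases hi : i ∈ T
    · have h1 := hy 1 (isHomogeneous_one _ _)
      rw [Finset.sum_eq_single i] at h1
      · simpa using h1
      · intro j _ hj
        rw [hyT j fun hjT => hj (Finset.card_le_one.1 hT j hjT i hi), zero_mul]
      · simp
    · exact hyT i hi
  | 1, hy, hT =>
    have hT : T.card ≤ 6 := hT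
    obtain ⟨T', hTT', hT'⟩ := Finset.exists_superset_card_eq hT (by simp)
    intro i
    by_cases hi : i ∈ T'
    · obtain ⟨a, ha1, haB, -⟩ := h.hyper (T'.erase i) (by
        rw [Finset.card_erase_of_mem hi, hT']) i (Finset.notMem_erase _ _)
      have h1 := hy (lin a) (lin_hom a)
      rw [Finset.sum_eq_single i] at h1
      · rwa [eval_lin, ha1, mul_one] at h1
      · intro j _ hj
        by_cases hjT : j ∈ T'
        · rw [eval_lin, haB j (Finset.mem_erase.2 ⟨hj, hjT⟩), mul_zero]
        · rw [hyT j fun hjT2 => hjT (hTT' hjT2), zero_mul]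
      · simp
    · exact hyT i fun h2 => hi (hTT' h2)
  | 2, hy, hT =>
    have hT : T.card ≤ 14 := hT
    obtain ⟨a, ha⟩ := h.ann2 y hy
    have h1 : 6 ≤ Tᶜ.card := by
      rw [Finset.card_compl]; simp; omega
    obtain ⟨T', hT', hT'6⟩ := Finset.exists_subset_card_eq h1
    have h2 : a = 0 := by
      refine h.lgp T' hT'6 a fun i hi => ?_
      have h3 := ha i
      rw [hyT i (Finset.mem_compl.1 (hT' hi))] at h3
      exact (mul_eq_zero.1 h3.symm).resolve_left (h.cne i)
    intro i
    rw [ha i, h2]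
    simp
  | 3, hy, hT =>
    have hT : T.card ≤ 19 := hT
    obtain ⟨s, hs⟩ := h.ann3 y hy
    obtain ⟨k, hk⟩ : ∃ k, k ∉ T := by
      by_contra hcon
      push Not at hcon
      have : T = Finset.univ := Finset.eq_univ_of_forall hcon
      rw [this] at hT
      simp at hT
    have h1 := hs k
    rw [hyT k hk] at h1
    have h2 : s = 0 := (mul_eq_zero.1 h1.symm).resolve_right (h.cne k)
    intro i
    rw [hs i, h2, zero_mul]
  | d + 4, hy, _ => exact h.ann4 (d + 4) (by omega) y hy

theorem Conf.surj (h : Conf p c) {ι : Type*} [Fintype ι] (d : ℕ) (idx : ι → Fin 20)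
    (hidx : Function.Injective idx) (hcard : Fintype.card ι ≤ NN d) :
    LinearMap.range (E (fun i => p (idx i)) d) = ⊤ := by
  classical
  by_contra hne
  obtain ⟨f, hf0, hf⟩ := Submodule.exists_le_ker_of_lt_top _ (lt_top_iff_ne_top.2 hne)
  apply hf0
  have hfy : ∀ y : ι → K, f y = ∑ i, f (Pi.single i 1) * y i := by
    intro y
    conv_lhs => rw [← Finset.univ_sum_single y]
    rw [map_sum]
    refine Finset.sum_congr rfl fun i _ => ?_
    have : Pi.single i (y i) = y i • (Pi.single i 1 : ι → K) := by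
      rw [← Pi.single_smul, smul_eq_mul, mul_one]
    rw [this, map_smul, smul_eq_mul, mul_comm]
  let y : Fin 20 → K := fun k => ∑ i, if idx i = k then f (Pi.single i 1) else 0
  have hy : Ann p d y := by
    intro g hg
    have h1 : f (E (fun i => p (idx i)) d ⟨g, hg⟩) = 0 := by
      have : E (fun i => p (idx i)) d ⟨g, hg⟩ ∈ LinearMap.range (E (fun i => p (idx i)) d) :=
        ⟨_, rfl⟩
      exact LinearMap.mem_ker.1 (hf this)
    rw [hfy] at h1
    rw [← h1]
    simp only [y, Finset.sum_mul, ite_mul, zero_mul, E_apply]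
    rw [Finset.sum_comm]
    refine Finset.sum_congr rfl fun i _ => ?_
    rw [Finset.sum_ite_eq]
    simp
  have h0 := h.supp_zero d y hy (Finset.univ.image idx)
    (Finset.card_image_le.trans (by simpa using hcard)) (by
      intro k hk
      refine Finset.sum_eq_zero fun i _ => ?_
      rw [if_neg]
      rintro rfl
      exact hk (Finset.mem_image_of_mem _ (Finset.mem_univ _)))
  ext i
  have h1 := h0 (idx i)
  simp only [y] at h1
  rw [Finset.sum_eq_single i] at h1
  · simpa using h1
  · intro j _ hj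
    rw [if_neg fun hjk => hj (hidx hjk)]
  · simp

/-- a set of `NN d` points such that forms of degree `d` vanishing on it vanish on all points -/
theorem Conf.vanish (h : Conf p c) (d : ℕ) : ∃ T : Finset (Fin 20), T.card = NN d ∧
    ∀ g : MvPolynomial (Fin 6) K, g.IsHomogeneous d → (∀ i ∈ T, eval (p i) g = 0) →
      ∀ i, eval (p i) g = 0 := by
  classical
  match d with
  | 0 =>
    refine ⟨{0}, rfl, ?_⟩
    intro g hg h0 i
    have h1 := (totalDegree_zero_iff_isHomogeneous (p := g)).2 hg
    rw [totalDegree_eq_zero_iff_eq_C] at h1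
    have h2 := h0 0 (by simp)
    rw [h1, eval_C] at h2 ⊢
    exact h2
  | 1 =>
    refine ⟨Finset.univ.filter fun i : Fin 20 => i.val < 6, by decide, ?_⟩
    intro g hg h0 i
    have h1 : g ∈ homogeneousSubmodule (Fin 6) K 1 := hg
    rw [homogeneousSubmodule_one_eq_span_X, Submodule.mem_span_range_iff_exists_fun] at h1
    obtain ⟨a, rfl⟩ := h1
    have h2 : ∑ j, a j • (X j : MvPolynomial (Fin 6) K) = lin a := by
      simp only [lin, MvPolynomial.smul_eq_C_mul]
    rw [h2] at h0 ⊢
    have h3 : a = 0 := h.lgp (Finset.univ.filter fun i : Fin 20 => i.val < 6) (by decide) a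
      (fun i hi => by rw [← eval_lin]; exact h0 i hi)
    rw [h3, eval_lin]
    simp
  | 2 =>
    refine ⟨Finset.univ.filter fun i : Fin 20 => 6 ≤ i.val, by decide, ?_⟩
    intro g hg h0 i
    by_cases hi : i.val < 6
    · obtain ⟨a, ha1, haB, -⟩ := h.hyper ((Finset.univ.filter fun i : Fin 20 => i.val < 6).erase i)
        (by rw [Finset.card_erase_of_mem (by simpa using hi)]; decide) i (Finset.notMem_erase _ _)
      have h1 := h.rel (lin a * g) (by
        have := (lin_hom a).mul hg
        exact this)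
      rw [Finset.sum_eq_single i] at h1
      · rw [map_mul, eval_lin, ha1, one_mul] at h1
        exact (mul_eq_zero.1 h1).resolve_left (h.cne i)
      · intro j _ hj
        rw [map_mul, eval_lin]
        by_cases hj6 : j.val < 6
        · rw [haB j (Finset.mem_erase.2 ⟨hj, by simpa using hj6⟩)]; ring
        · rw [h0 j (by simpa using hj6)]; ring
      · simp
    · exact h0 i (by simpa using hi)
  | 3 =>
    refine ⟨Finset.univ.erase 0, by decide, ?_⟩
    intro g hg h0 i
    by_cases hi : i = 0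
    · subst hi
      have h1 := h.rel g hg
      rw [Finset.sum_eq_single 0] at h1
      · exact (mul_eq_zero.1 h1).resolve_left (h.cne 0)
      · intro j _ hj
        rw [h0 j (Finset.mem_erase.2 ⟨hj, Finset.mem_univ _⟩), mul_zero]
      · simp
    · exact h0 i (Finset.mem_erase.2 ⟨hi, Finset.mem_univ _⟩)
  | d + 4 =>
    exact ⟨Finset.univ, rfl, fun g _ h0 i => h0 i (Finset.mem_univ _)⟩

theorem Conf.rank_le (h : Conf p c) (d : ℕ) :
    Module.finrank K (LinearMap.range (E p d)) ≤ NN d := by
  classical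
  obtain ⟨T, hT, hv⟩ := h.vanish d
  let ρ : (Fin 20 → K) →ₗ[K] (T → K) := LinearMap.funLeft K K fun i : T => i.1
  have hinj : Function.Injective (ρ.domRestrict (LinearMap.range (E p d))) := by
    rw [← LinearMap.ker_eq_bot, LinearMap.ker_eq_bot']
    rintro ⟨_, g, rfl⟩ hg
    refine Subtype.ext ?_
    funext i
    change E p d g i = 0
    rw [E_apply]
    refine hv g.1 g.2 (fun i hi => ?_) i
    have h1 := congrFun hg ⟨i, hi⟩
    rw [← E_apply]
    exact h1
  have h2 := LinearMap.finrank_le_finrank_of_injective hinj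
  rwa [Module.finrank_pi, Fintype.card_coe, hT] at h2

theorem rank_comp_le {ι κ : Type*} [Finite ι] [Finite κ] (q : ι → Fin 6 → K) (e : κ → ι) (d : ℕ) :
    Module.finrank K (LinearMap.range (E (fun i => q (e i)) d)) ≤
      Module.finrank K (LinearMap.range (E q d)) := by
  have h1 : E (fun i => q (e i)) d = LinearMap.funLeft K K e ∘ₗ E q d := by
    ext g i
    rfl
  rw [h1, LinearMap.range_comp]
  exact Submodule.finrank_map_le _ _

theorem Conf.rank_eq (h : Conf p c) {ι : Type*} [Fintype ι] (d : ℕ) (idx : ι → Fin 20)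
    (hidx : Function.Injective idx) :
    Module.finrank K (LinearMap.range (E (fun i => p (idx i)) d)) = min (NN d) (Fintype.card ι) := by
  classical
  rcases le_or_gt (Fintype.card ι) (NN d) with hle | hlt
  · rw [h.surj d idx hidx hle, finrank_top, Module.finrank_pi, min_eq_right hle]
  · rw [min_eq_left hlt.le]
    refine le_antisymm ?_ ?_
    · exact (rank_comp_le p idx d).trans (h.rank_le d)
    · obtain ⟨e⟩ : Nonempty (Fin (NN d) ↪ ι) :=
        Function.Embedding.nonempty_of_card_le (by simpa using hlt.le)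
      have h1 := h.surj d (fun i => idx (e i)) (hidx.comp e.injective) (by simp)
      have h2 := rank_comp_le (fun i => p (idx i)) e d
      rw [h1, finrank_top, Module.finrank_pi, Fintype.card_fin] at h2
      exact h2

theorem eval_smul_hom (a : K) (q : Fin 6 → K) (g : MvPolynomial (Fin 6) K) (d : ℕ)
    (hg : g.IsHomogeneous d) : eval (a • q) g = a ^ d * eval q g := by
  rw [eval_eq, eval_eq, Finset.mul_sum]
  refine Finset.sum_congr rfl fun e he => ?_
  have hd : e.degree = d := by
    by_contra hne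
    exact (mem_support_iff.1 he) (hg.coeff_eq_zero hne)
  have h1 : ∏ i ∈ e.support, (a • q) i ^ e i = a ^ d * ∏ i ∈ e.support, q i ^ e i := by
    simp only [Pi.smul_apply, smul_eq_mul, mul_pow]
    rw [Finset.prod_mul_distrib, Finset.prod_pow_eq_pow_sum]
    congr 2
  rw [h1]
  ring

theorem rank_scale_le {ι : Type*} [Finite ι] (q q' : ι → Fin 6 → K) (a : ι → K)
    (ha : ∀ i, q' i = a i • q i) (d : ℕ) :
    Module.finrank K (LinearMap.range (E q' d)) ≤ Module.finrank K (LinearMap.range (E q d)) := by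
  let D : (ι → K) →ₗ[K] (ι → K) := LinearMap.pi fun i => a i ^ d • LinearMap.proj i
  have h1 : E q' d = D ∘ₗ E q d := by
    ext g i
    change E q' d g i = a i ^ d • E q d g i
    rw [E_apply, E_apply, ha i, eval_smul_hom _ _ _ d g.2, smul_eq_mul]
  rw [h1, LinearMap.range_comp]
  exact Submodule.finrank_map_le _ _

theorem Conf.ne_zero (h : Conf p c) (i : Fin 20) : p i ≠ 0 := by
  classical
  obtain ⟨B, hB5, hBd⟩ := exists_five {i} (by simp)
  have hiB : i ∉ B := fun hx => (Finset.disjoint_left.1 hBd hx) (by simp)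
  obtain ⟨a, ha1, -, -⟩ := h.hyper B hB5 i hiB
  intro h0
  rw [h0] at ha1
  simp at ha1

open scoped LinearAlgebra.Projectivization

/-- the points -/
noncomputable def Conf.pt (h : Conf p c) (i : Fin 20) : ℙ K (Fin 6 → K) :=
  Projectivization.mk K (p i) (h.ne_zero i)

theorem Conf.pt_inj (h : Conf p c) : Function.Injective h.pt := by
  classical
  intro i j hij
  by_contra hne
  obtain ⟨B, hB5, hBj, hBi⟩ : ∃ B : Finset (Fin 20), B.card = 5 ∧ j ∈ B ∧ i ∉ B := by
    obtain ⟨B, hB, hB5⟩ := Finset.exists_subsuperset_card_eq (s := {j}) (t := Finset.univ.erase i)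
      (n := 5) (by simpa using Ne.symm hne) (by simp) (by simp)
    exact ⟨B, hB5.2, hB (by simp), fun hi => by simpa using hB5.1 hi⟩
  obtain ⟨a, ha1, haB, -⟩ := h.hyper B hB5 i hBi
  obtain ⟨u, hu⟩ := (Projectivization.mk_eq_mk_iff' K _ _ (h.ne_zero i) (h.ne_zero j)).1 hij
  rw [← hu, smul_dotProduct, haB j hBj] at ha1
  simp at ha1

/-- the configuration as a finite set of points of `ℙ^5` -/
noncomputable def Conf.Gam (h : Conf p c) : Finset (ℙ K (Fin (5 + 1) → K)) := by
  classical exact Finset.univ.image h.pt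

theorem Conf.hilb_eq (h : Conf p c) (A : Finset (ℙ K (Fin (5 + 1) → K))) (hA : A ⊆ h.Gam) (d : ℕ) :
    hilb A d = min (NN d) A.card := by
  classical
  have h1 : ∀ x : A, ∃ i, h.pt i = x.1 := by
    intro x
    have := hA x.2
    simpa [Conf.Gam] using this
  choose idx hidx using h1
  have hinj : Function.Injective idx := by
    intro x y hxy
    exact Subtype.ext (by rw [← hidx x, ← hidx y, hxy])
  have h2 : ∀ x : A, ∃ a : K, x.1.rep = a • p (idx x) := by
    intro x
    obtain ⟨u, hu⟩ := Projectivization.exists_smul_eq_mk_rep K (p (idx x)) (h.ne_zero _)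
    refine ⟨u, ?_⟩
    rw [← hidx x]
    exact hu.symm
  choose a ha using h2
  have h3 : ∀ x : A, p (idx x) = (a x)⁻¹ • x.1.rep := by
    intro x
    have : a x ≠ 0 := by
      intro h0
      have := ha x
      rw [h0, zero_smul] at this
      exact x.1.rep_nonzero this
    rw [ha x, smul_smul, inv_mul_cancel₀ this, one_smul]
  have h4 := rank_scale_le (fun x : A => p (idx x)) (fun x : A => x.1.rep) a ha d
  have h5 := rank_scale_le (fun x : A => x.1.rep) (fun x : A => p (idx x)) _ h3 d
  have h6 := h.rank_eq d idx hinj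
  rw [Fintype.card_coe] at h6
  rw [← h6]
  exact le_antisymm h4 h5

theorem Conf.card_Gam (h : Conf p c) : h.Gam.card = 20 := by
  classical
  rw [Conf.Gam, Finset.card_image_of_injective _ h.pt_inj]
  simp

theorem Conf.uniform (h : Conf p c) : UniformPosition h.Gam := by
  intro A hA B hB hAB d
  rw [h.hilb_eq A hA, h.hilb_eq B hB, hAB]

end abs
end Pool.Agent.Helper872.EH
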