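import Mathlib
import Pool.Agent.Helper872.EH.Bezout
import Pool.Agent.Helper872.EH.Uniform
import Pool.Agent.Helper872.EH.Data
set_option autoImplicit false
open MvPolynomial
open scoped LinearAlgebra.Projectivization

namespace Pool.Agent.Helper872.EH

theorem qf_vv : ∀ i k, qf (vv i) k = 0 := by decide +kernel

section final
variable (K : Type*) [Field K] [CharZero K]

/-- the twenty vectors over `K` -/
def pp (i : Fin 20) (j : Fin 6) : K := (vv i j : K)

/-- the weights over `K` -/
def cK (i : Fin 20) : K := (cc i : K)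

theorem qf_pp (i : Fin 20) (k : Fin 7) : qf (pp K i) k = 0 := by
  have h := qf_map (Int.castRingHom K) (vv i) k
  rw [qf_vv i k, map_zero] at h
  exact h.symm

theorem pp_lgp (T : Finset (Fin 20)) (hT : T.card = 6) (a : Fin 6 → K)
    (ha : ∀ i ∈ T, pp K i ⬝ᵥ a = 0) : a = 0 := by
  classical
  -- the covector in the other basis
  let a' : Fin 6 → K := fun k => ∑ j, a j * (nn j k : K)
  have hdot : ∀ i ∈ T, dot (List.ofFn a') (wl.getD i.val []) = 0 := by
    intro i hi
    have hlen : (wl.getD i.val []).length = 6 := by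
      have h1 : i.val < wl.length := by rw [wl_length]; exact i.2
      rw [List.getD_eq_getElem _ _ h1]
      exact wl_lengths _ (List.getElem_mem h1)
    rw [dot_ofFn 6 a' _ hlen]
    have h2 : pp K i ⬝ᵥ a = ∑ k : Fin 6, a' k * (((wl.getD i.val []).getD k.val 0 : ℤ) : K) := by
      simp only [dotProduct, pp, a', Finset.sum_mul]
      rw [Finset.sum_comm]
      refine Finset.sum_congr rfl fun j _ => ?_
      rw [vv_eq i j]
      push_cast
      rw [Finset.sum_mul]
      refine Finset.sum_congr rfl fun k _ => ?_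
      ring
    rw [← h2]
    exact ha i hi
  let s0 : List (Fin 20) := (List.finRange 20).filter fun i => i ∈ T
  have hs0 : s0.toFinset = T := by
    ext i
    simp [s0]
  have hs0n : s0.Nodup := (List.nodup_finRange 20).filter _
  have hs0l : s0.length = 6 := by
    rw [← hT, ← hs0, List.toFinset_card_of_nodup hs0n]
  have hsub : (s0.map fun i => wl.getD i.val []).Sublist wl := by
    conv_rhs => rw [← wl_eq]
    exact (List.filter_sublist).map _
  have hz := chk_sound (K := K) 6 wl wl_lengths chk_wl (s0.map fun i => wl.getD i.val []) hsub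
    (by simpa using hs0l) (List.ofFn a') (by simp) (by
      intro w hw
      rw [List.mem_map] at hw
      obtain ⟨i, hi, rfl⟩ := hw
      refine hdot i ?_
      rw [← hs0, List.mem_toFinset]
      exact hi)
  have ha' : ∀ k, a' k = 0 := fun k => hz _ (List.mem_ofFn.2 ⟨k, rfl⟩)
  funext l
  have h3 : ∑ k, a' k * (mm k l : K) = a l := by
    simp only [a', Finset.sum_mul]
    rw [Finset.sum_comm]
    have h4 : ∀ j, ∑ k, a j * (nn j k : K) * (mm k l : K) = if j = l then a l else 0 := by
      intro j
      have h5 : ((∑ k, nn j k * mm k l : ℤ) : K) = ((if j = l then 1 else 0 : ℤ) : K) := by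
        rw [nn_mm j l]
      push_cast at h5
      simp only [mul_assoc]
      rw [← Finset.mul_sum, h5]
      split_ifs with h6
      · rw [h6]; simp
      · simp
    simp only [h4]
    simp
  rw [← h3]
  simp [ha']

/-- reduction of relations to lower degree -/
theorem rel_step (n : ℕ) (w : Fin 20 → K)
    (h : ∀ a : Fin 6, ∀ g : MvPolynomial (Fin 6) K, g.IsHomogeneous n →
      ∑ i, w i * pp K i a * eval (pp K i) g = 0) (g : MvPolynomial (Fin 6) K)
    (hg : g.IsHomogeneous (n + 1)) : ∑ i, w i * eval (pp K i) g = 0 := by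
  have h1 : ∀ i, w i * eval (pp K i) g = ∑ e ∈ g.support, w i * eval (pp K i)
      (monomial e (coeff e g)) := by
    intro i
    conv_lhs => rw [g.as_sum]
    rw [map_sum, Finset.mul_sum]
  simp only [h1]
  rw [Finset.sum_comm]
  refine Finset.sum_eq_zero fun e he => ?_
  have hd : e.degree = n + 1 := by
    by_contra hne
    exact (mem_support_iff.1 he) (hg.coeff_eq_zero hne)
  have hne : e ≠ 0 := by
    rintro rfl
    simp at hd
  obtain ⟨a, ha⟩ := Finsupp.ne_iff.1 hne
  have hle : Finsupp.single a 1 ≤ e := by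
    rw [Finsupp.single_le_iff]
    exact Nat.one_le_iff_ne_zero.2 (by simpa using ha)
  obtain ⟨e', rfl⟩ := exists_add_of_le hle
  rw [map_add, Finsupp.degree_single] at hd
  have h2 := h a (monomial e' (coeff (Finsupp.single a 1 + e') g))
    (isHomogeneous_monomial _ (by omega))
  rw [← h2]
  refine Finset.sum_congr rfl fun i _ => ?_
  have h3 : monomial (Finsupp.single a 1 + e') (coeff (Finsupp.single a 1 + e') g) =
      X a * monomial e' (coeff (Finsupp.single a 1 + e') g) := by
    rw [X, monomial_mul, one_mul]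
  rw [h3, map_mul, eval_X]
  ring

theorem conf : Conf (pp K) (cK K) where
  lgp := pp_lgp K
  cne := fun i => by
    have := cc_ne i
    simp only [cK]
    exact_mod_cast this
  rel := by
    intro g hg
    refine rel_step K 2 _ (fun a g hg => ?_) g hg
    refine rel_step K 1 _ (fun b g hg => ?_) g hg
    refine rel_step K 0 _ (fun d g hg => ?_) g hg
    have h1 := (totalDegree_zero_iff_isHomogeneous (p := g)).2 hg
    rw [totalDegree_eq_zero_iff_eq_C] at h1
    rw [h1]
    simp only [eval_C]
    rw [← Finset.sum_mul]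
    have h2 : ((∑ i, cc i * vv i a * vv i b * vv i d : ℤ) : K) = 0 := by
      rw [cubic a b d]; simp
    push_cast at h2
    have h3 : ∑ i, cK K i * pp K i a * pp K i b * pp K i d = 0 := h2
    rw [h3, zero_mul]
  dual := by
    intro i hi
    have hev : ∀ j, eval (pp K j) (∑ a, ∑ b, C (dd i a b : K) * (X a * X b)) =
        ((∑ a, ∑ b, dd i a b * (vv j a * vv j b) : ℤ) : K) := by
      intro j
      simp only [map_sum, map_mul, eval_C, eval_X, pp]
      push_cast
      rfl
    refine ⟨∑ a, ∑ b, C (dd i a b : K) * (X a * X b), ?_, ?_, ?_⟩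
    · refine IsHomogeneous.sum _ _ _ fun a _ => IsHomogeneous.sum _ _ _ fun b _ => ?_
      exact ((isHomogeneous_X K a).mul (isHomogeneous_X K b)).C_mul _
    · rw [hev i]
      have := dd_ne i hi
      exact_mod_cast this
    · intro j hj hji
      rw [hev j, dd_zero i j hi hj hji]
      simp

theorem main : ∃ Γ : Finset (ℙ K (Fin (5 + 1) → K)), Γ.card = 20 ∧ UniformPosition Γ ∧
    hilb Γ 2 = 14 ∧ ∀ I : Ideal (MvPolynomial (Fin (5 + 1)) K), IsCurve I → LiesOn Γ I →
      ∀ e : ℕ, HasDegree I e → 10 ≤ e := by
  classical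
  have h := conf K
  refine ⟨h.Gam, h.card_Gam, h.uniform, ?_, ?_⟩
  · rw [h.hilb_eq _ subset_rfl, h.card_Gam]
    rfl
  · intro I hI hΓ e he
    have hp : ∀ i, ∀ g ∈ I, eval (pp K i) g = 0 := by
      intro i g hg
      have hmem : h.pt i ∈ h.Gam := by
        simp [Conf.Gam]
      obtain ⟨u, hu⟩ := Projectivization.exists_smul_eq_mk_rep K (pp K i) (h.ne_zero i)
      -- all homogeneous components vanish
      have hcomp : ∀ n, eval (pp K i) (homogeneousComponent n g) = 0 := by
        intro n
        have h1 := hΓ _ hmem _ (hI.1 g hg n)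
        have h2 : (fun j => (h.pt i).rep j) = (u : K) • pp K i := by
          funext j
          rw [Conf.pt, ← hu]
          rfl
        rw [h2, eval_smul_hom _ _ _ n (homogeneousComponent_isHomogeneous n g)] at h1
        exact (mul_eq_zero.1 h1).resolve_left (pow_ne_zero _ u.ne_zero)
      rw [← sum_homogeneousComponent g, map_sum]
      exact Finset.sum_eq_zero fun n _ => hcomp n
    have hsurj : ∀ t, 4 ≤ t → ∀ y : Fin 20 → K, ∃ g : MvPolynomial (Fin 6) K,
        g.IsHomogeneous t ∧ ∀ i, eval (pp K i) g = y i := by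
      intro t ht y
      have hNN : NN t = 20 := by
        obtain ⟨s, rfl⟩ : ∃ s, t = s + 4 := ⟨t - 4, by omega⟩
        rfl
      have h1 := h.surj t id Function.injective_id (by rw [hNN]; simp)
      have h2 : y ∈ LinearMap.range (E (fun i => pp K (id i)) t) := by rw [h1]; trivial
      obtain ⟨g, hg⟩ := h2
      refine ⟨g.1, g.2, fun i => ?_⟩
      rw [← hg, E_apply]
      rfl
    have h3 := bezout (pp K) (qf_pp K) hsurj I hI hp e he
    rw [Fintype.card_fin] at h3
    omega

theorem not_assertion : ¬ Assertion K 5 4 := by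
  intro hA
  obtain ⟨Γ, hcard, hU, h2, hdeg⟩ := main K
  obtain ⟨I, hI, hL, e, he, hle⟩ := hA Γ (by rw [hcard]; norm_num) hU (by rw [h2])
  have := hdeg I hI hL e he
  omega

end final
end Pool.Agent.Helper872.EH
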